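import Mathlib
import Pool.Agent.H582R5.RP.Core2
import Pool.Agent.TH350.RC.SumReg

/-!
# The product of two coth series and roots of unity
-/

set_option autoImplicit false

namespace Pool.Agent.Run7.h263.RI

open Finset Pool.Agent.H582R5.RP Pool.Agent.H332R2 Pool.Agent.TH350.SumReg

section Alg

variable {K : Type} [Field K] [DecidableEq K]

/-- `μ_a` without `1` -/
noncomputable def mu (K : Type) [Field K] [DecidableEq K] (a : ℕ) : Finset K :=
  (Polynomial.nthRootsFinset a (1 : K)).erase 1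

lemma mem_mu {a : ℕ} (ha : 0 < a) {x : K} : x ∈ mu K a ↔ x ≠ 1 ∧ x ^ a = 1 := by
  rw [mu, mem_erase, Polynomial.mem_nthRootsFinset ha]

lemma sum_roots {a : ℕ} (ha : 0 < a) {ζ : K} (hζ : IsPrimitiveRoot ζ a) :
    ∑ x ∈ Polynomial.nthRootsFinset a (1 : K), (Polynomial.X + Polynomial.C x) *
      ∏ y ∈ (Polynomial.nthRootsFinset a (1 : K)).erase x, (Polynomial.X - Polynomial.C y) =
    Polynomial.C (a : K) * (Polynomial.X ^ a + 1) := by
  set M := Polynomial.nthRootsFinset a (1 : K) with hM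
  have hprod : (Polynomial.X : Polynomial K) ^ a - 1 = ∏ y ∈ M, (Polynomial.X - Polynomial.C y) :=
    Polynomial.X_pow_sub_one_eq_prod ha hζ
  have hder : ∑ x ∈ M, ∏ y ∈ M.erase x, (Polynomial.X - Polynomial.C y) =
      Polynomial.C (a : K) * Polynomial.X ^ (a - 1) := by
    have h := congrArg Polynomial.derivative hprod
    rw [Polynomial.derivative_prod_finset] at h
    simp only [Polynomial.derivative_sub, Polynomial.derivative_X, Polynomial.derivative_C, sub_zero,
      mul_one, Polynomial.derivative_X_pow, Polynomial.derivative_one] at h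
    rw [← h]
  have h1 : ∀ x ∈ M, (Polynomial.X + Polynomial.C x) * ∏ y ∈ M.erase x, (Polynomial.X - Polynomial.C y) =
      2 * Polynomial.X * ∏ y ∈ M.erase x, (Polynomial.X - Polynomial.C y) -
        ∏ y ∈ M, (Polynomial.X - Polynomial.C y) := by
    intro x hx
    rw [← mul_prod_erase M _ hx]
    ring
  rw [sum_congr rfl h1, sum_sub_distrib, ← mul_sum, hder, sum_const, ← hprod, hM,
    hζ.card_nthRootsFinset]
  obtain ⟨n, rfl⟩ : ∃ n, a = n + 1 := ⟨a - 1, by omega⟩
  simp only [nsmul_eq_mul, Nat.add_sub_cancel, map_natCast]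
  ring

/-- the odd function `(y+1)/(y-1)` -/
noncomputable def kap (y : K) : K := (y + 1) / (y - 1)

omit [DecidableEq K] in
lemma kap_inv {y : K} (hy : y ≠ 0) : kap y⁻¹ = - kap y := by
  unfold kap
  rcases eq_or_ne y 1 with rfl | h1
  · simp
  · have h2 : y - 1 ≠ 0 := sub_ne_zero.2 h1
    have h3 : y⁻¹ - 1 ≠ 0 := by
      rw [sub_ne_zero]
      intro h; exact h1 (by simpa using h)
    rw [← neg_div, div_eq_div_iff h3 h2]
    field_simp
    ring

lemma sum_ratio {b : ℕ} (hb : 0 < b) {η₀ : K} (hη : IsPrimitiveRoot η₀ b) {ζ : K} (h1 : ζ ^ b ≠ 1) :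
    ∑ y ∈ mu K b, (ζ + y) / (ζ - y) = b * kap (ζ ^ b) - kap ζ := by
  set M := Polynomial.nthRootsFinset b (1 : K) with hM
  have h1M : (1 : K) ∈ M := by rw [hM, Polynomial.mem_nthRootsFinset hb, one_pow]
  have hne : ∀ y ∈ M, ζ - y ≠ 0 := by
    intro y hy h0
    rw [hM, Polynomial.mem_nthRootsFinset hb] at hy
    rw [sub_eq_zero] at h0
    rw [h0] at h1
    exact h1 hy
  have hs := congrArg (Polynomial.eval ζ) (sum_roots hb hη)
  have hp := congrArg (Polynomial.eval ζ) (Polynomial.X_pow_sub_one_eq_prod hb hη)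
  rw [← hM] at hs hp
  simp only [Polynomial.eval_finsetSum, Polynomial.eval_mul, Polynomial.eval_add, Polynomial.eval_X,
    Polynomial.eval_C, Polynomial.eval_prod, Polynomial.eval_sub, Polynomial.eval_pow,
    Polynomial.eval_one] at hs hp
  have hP : (∏ y ∈ M, (ζ - y)) ≠ 0 := prod_ne_zero_iff.2 hne
  have h2 : ∑ y ∈ M, (ζ + y) / (ζ - y) = b * kap (ζ ^ b) := by
    have h3 : (∏ y ∈ M, (ζ - y)) * ∑ y ∈ M, (ζ + y) / (ζ - y) = b * (ζ ^ b + 1) := by
      rw [← hs, mul_sum]
      refine sum_congr rfl fun y hy => ?_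
      rw [← mul_prod_erase M _ hy]
      have := hne y hy
      field_simp
    unfold kap
    rw [hp, ← mul_div_assoc, eq_div_iff hP, mul_comm, h3]
  have h3 := add_sum_erase M (fun y => (ζ + y) / (ζ - y)) h1M
  rw [h2] at h3
  have h4 : mu K b = M.erase 1 := rfl
  rw [h4, ← h3]
  unfold kap
  ring

lemma sum_kap (h2 : (2 : K) ≠ 0) {a : ℕ} (ha : 0 < a) : ∑ x ∈ mu K a, kap x = 0 := by
  have h : ∑ x ∈ mu K a, kap x = ∑ x ∈ mu K a, - kap x := by
    refine sum_nbij' (fun x => x⁻¹) (fun x => x⁻¹) ?_ ?_ ?_ ?_ ?_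
    · intro x hx
      rw [mem_mu ha] at hx ⊢
      exact ⟨fun h => hx.1 (by simpa using h), by rw [inv_pow, hx.2, inv_one]⟩
    · intro x hx
      rw [mem_mu ha] at hx ⊢
      exact ⟨fun h => hx.1 (by simpa using h), by rw [inv_pow, hx.2, inv_one]⟩
    · intro x _; exact inv_inv x
    · intro x _; exact inv_inv x
    · intro x hx
      rw [mem_mu ha] at hx
      have h0 : x ≠ 0 := by
        intro h0
        rw [h0, zero_pow (by omega)] at hx
        exact zero_ne_one hx.2
      rw [kap_inv h0, neg_neg]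
  rw [sum_neg_distrib] at h
  have h3 : (2 : K) * ∑ x ∈ mu K a, kap x = 0 := by linear_combination h
  exact (mul_eq_zero.1 h3).resolve_left h2

end Alg

section Ser

open PowerSeries

variable {K : Type} [Field K] [DecidableEq K]

omit [DecidableEq K] in
lemma ee_const (l : K) : constantCoeff (ee l) = 1 := by
  rw [← coeff_zero_eq_constantCoeff_apply, ee, coeff_mk]
  simp

/-- `(e^X - 1)/X` -/
noncomputable def uu (K : Type) [Field K] : PowerSeries K :=
  PowerSeries.mk (fun n => coeff (n + 1) (ee (1 : K)))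

omit [DecidableEq K] in
lemma uu_spec : (ee (1 : K)) - 1 = X * uu K := by
  ext n
  rcases n with _ | n
  · rw [map_sub, coeff_zero_eq_constantCoeff_apply, ee_const, coeff_zero_eq_constantCoeff_apply,
      coeff_zero_eq_constantCoeff_apply]
    simp
  · rw [map_sub, coeff_succ_X_mul, uu, coeff_mk, coeff_one, if_neg (by omega), sub_zero]

omit [DecidableEq K] in
lemma uu_const : constantCoeff (uu K) = 1 := by
  rw [← coeff_zero_eq_constantCoeff_apply, uu, coeff_mk, ee, coeff_mk]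
  simp

/-- `x coth (x/2)` -/
noncomputable def H1 (K : Type) [Field K] : PowerSeries K := (ee 1 + 1) * (uu K)⁻¹

/-- `(e^x + ζ)/(e^x - ζ)` -/
noncomputable def cz (ζ : K) : PowerSeries K := (ee 1 + C ζ) * (ee 1 - C ζ)⁻¹

omit [DecidableEq K] in
lemma uu_inv : uu K * (uu K)⁻¹ = 1 := PowerSeries.mul_inv_cancel _ (by rw [uu_const]; exact one_ne_zero)

omit [DecidableEq K] in
lemma ez_inv {ζ : K} (h : ζ ≠ 1) : (ee (1 : K) - C ζ) * (ee (1 : K) - C ζ)⁻¹ = 1 := by
  apply PowerSeries.mul_inv_cancel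
  rw [map_sub, ee_const, constantCoeff_C, sub_ne_zero]
  exact h.symm

/-- `x a coth (a x / 2)` -/
noncomputable def HH (K : Type) [Field K] [DecidableEq K] (a : ℕ) : PowerSeries K :=
  H1 K + X * ∑ x ∈ mu K a, cz x

omit [DecidableEq K] in
lemma cz_mul {ζ η : K} (hζ : ζ ≠ 1) (hη : η ≠ 1) (hne : ζ ≠ η) :
    cz ζ * cz η = 1 + C ((ζ + η) / (ζ - η)) * (cz ζ - cz η) := by
  have hP := ez_inv hζ
  have hR := ez_inv hη
  have hk : C ((ζ + η) / (ζ - η)) * (C ζ - C η) = (C ζ + C η : PowerSeries K) := by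
    rw [← map_sub, ← map_mul, ← map_add, div_mul_cancel₀ _ (sub_ne_zero.2 hne)]
  unfold cz
  set e := ee (1 : K)
  set P := (e - C ζ)⁻¹
  set R := (e - C η)⁻¹
  set k := (C ((ζ + η) / (ζ - η)) : PowerSeries K)
  linear_combination (-2 * e * P * R) * hk + ((e - C ζ) * P + k * (e + C ζ) * P) * hR +
    (1 - k * (e + C η) * R) * hP

omit [DecidableEq K] in
lemma H1_mul {ζ : K} (hζ : ζ ≠ 1) : H1 K * cz ζ = X - C (kap ζ) * (H1 K - X * cz ζ) := by
  have hP := ez_inv hζ
  have hU := uu_inv (K := K)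
  have he := uu_spec (K := K)
  have hk : C (kap ζ) * (C ζ - 1) = (C ζ + 1 : PowerSeries K) := by
    have : (1 : PowerSeries K) = C 1 := by simp
    rw [this, ← map_sub, ← map_mul, ← map_add]
    unfold kap
    rw [div_mul_cancel₀ _ (sub_ne_zero.2 hζ)]
  unfold cz H1
  set e := ee (1 : K)
  set P := (e - C ζ)⁻¹
  set U := (uu K)⁻¹
  set k := (C (kap ζ) : PowerSeries K)
  have hX : (e - 1) * U = X := by
    rw [he, mul_assoc, hU, mul_one]
  linear_combination (-2 * e * U * P) * hk + ((e - 1) * U - k * (e + 1) * U) * hP +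
    (1 + k * P * (e + C ζ)) * hX

end Ser

end Pool.Agent.Run7.h263.RI
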