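import Mathlib
import Pool.Agent.Run7.h263.RI.Rat

/-!
# The reciprocity law
-/

set_option autoImplicit false

namespace Pool.Agent.Run7.h263.RI

open Finset Pool.Agent.H582R5.RP Pool.Agent.H332R2 Pool.Agent.TH350.SumReg PowerSeries

variable {K : Type} [Field K] [DecidableEq K]

lemma mu_pow_ne {a b : ℕ} (ha : 0 < a) (hab : Nat.Coprime a b) {x : K} (hx : x ∈ mu K a) :
    x ^ b ≠ 1 := by
  intro h
  rw [mem_mu ha] at hx
  have h1 : orderOf x ∣ Nat.gcd a b := Nat.dvd_gcd (orderOf_dvd_of_pow_eq_one hx.2) (orderOf_dvd_of_pow_eq_one h)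
  rw [hab] at h1
  have h2 := orderOf_eq_one_iff.1 (Nat.dvd_one.1 h1)
  exact hx.1 h2

lemma mu_ne {a b : ℕ} (ha : 0 < a) (hb : 0 < b) (hab : Nat.Coprime a b) {x y : K} (hx : x ∈ mu K a)
    (hy : y ∈ mu K b) : x ≠ y := by
  rintro rfl
  exact mu_pow_ne ha hab hx ((mem_mu hb).1 hy).2

lemma HH_mul (h2 : (2 : K) ≠ 0) {a b : ℕ} (ha : 0 < a) (hb : 0 < b) (hab : Nat.Coprime a b)
    {ζ₀ η₀ : K} (hζ : IsPrimitiveRoot ζ₀ a) (hη : IsPrimitiveRoot η₀ b) :
    ∃ k : K, HH K a * HH K b = H1 K * H1 K + X ^ 2 * C k +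
      X ^ 2 * (∑ x ∈ mu K a, C (b * kap (x ^ b)) * cz x + ∑ y ∈ mu K b, C (a * kap (y ^ a)) * cz y) := by
  refine ⟨((mu K a).card : K) + (mu K b).card + (mu K a).card * (mu K b).card, ?_⟩
  have e1 : H1 K * ∑ x ∈ mu K a, cz x = X * C ((mu K a).card : K) + X * ∑ x ∈ mu K a, C (kap x) * cz x := by
    rw [mul_sum]
    have : ∀ x ∈ mu K a, H1 K * cz x = X + X * (C (kap x) * cz x) - H1 K * C (kap x) := by
      intro x hx
      rw [H1_mul ((mem_mu ha).1 hx).1]
      ring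
    rw [sum_congr rfl this, sum_sub_distrib, sum_add_distrib, sum_const, ← mul_sum, ← mul_sum, ← map_sum,
      sum_kap h2 ha, map_zero, mul_zero, sub_zero, nsmul_eq_mul, map_natCast]
    ring
  have e2 : H1 K * ∑ x ∈ mu K b, cz x = X * C ((mu K b).card : K) + X * ∑ x ∈ mu K b, C (kap x) * cz x := by
    rw [mul_sum]
    have : ∀ x ∈ mu K b, H1 K * cz x = X + X * (C (kap x) * cz x) - H1 K * C (kap x) := by
      intro x hx
      rw [H1_mul ((mem_mu hb).1 hx).1]
      ring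
    rw [sum_congr rfl this, sum_sub_distrib, sum_add_distrib, sum_const, ← mul_sum, ← mul_sum, ← map_sum,
      sum_kap h2 hb, map_zero, mul_zero, sub_zero, nsmul_eq_mul, map_natCast]
    ring
  have e3 : (∑ x ∈ mu K a, cz x) * ∑ y ∈ mu K b, cz y =
      C (((mu K a).card : K) * (mu K b).card) +
      ∑ x ∈ mu K a, C (b * kap (x ^ b) - kap x) * cz x +
      ∑ y ∈ mu K b, C (a * kap (y ^ a) - kap y) * cz y := by
    rw [sum_mul_sum]
    have h1 : ∀ x ∈ mu K a, ∀ y ∈ mu K b, cz x * cz y =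
        1 + C ((x + y) / (x - y)) * cz x + C ((y + x) / (y - x)) * cz y := by
      intro x hx y hy
      rw [cz_mul ((mem_mu ha).1 hx).1 ((mem_mu hb).1 hy).1 (mu_ne ha hb hab hx hy)]
      have : (y + x) / (y - x) = - ((x + y) / (x - y)) := by
        rw [add_comm, ← neg_sub x y, div_neg]
      rw [this, map_neg]
      ring
    rw [sum_congr rfl (fun x hx => sum_congr rfl (h1 x hx))]
    simp only [sum_add_distrib]
    congr 1
    · congr 1
      · simp
      · refine sum_congr rfl fun x hx => ?_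
        rw [← sum_mul, ← map_sum, sum_ratio hb hη (mu_pow_ne ha hab hx)]
    · rw [sum_comm]
      refine sum_congr rfl fun y hy => ?_
      rw [← sum_mul, ← map_sum, sum_ratio ha hζ (mu_pow_ne hb hab.symm hy)]
  have e4 : ∑ x ∈ mu K a, C (b * kap (x ^ b) - kap x) * cz x =
      ∑ x ∈ mu K a, C (b * kap (x ^ b)) * cz x - ∑ x ∈ mu K a, C (kap x) * cz x := by
    rw [← sum_sub_distrib]
    refine sum_congr rfl fun x _ => ?_
    rw [map_sub, sub_mul]
  have e5 : ∑ x ∈ mu K b, C (a * kap (x ^ a) - kap x) * cz x =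
      ∑ x ∈ mu K b, C (a * kap (x ^ a)) * cz x - ∑ x ∈ mu K b, C (kap x) * cz x := by
    rw [← sum_sub_distrib]
    refine sum_congr rfl fun x _ => ?_
    rw [map_sub, sub_mul]
  rw [e4, e5] at e3
  unfold HH
  rw [map_add, map_add]
  linear_combination X * e1 + X * e2 + X ^ 2 * e3

lemma HH_rel {a : ℕ} (ha : 0 < a) {ζ₀ : K} (hζ : IsPrimitiveRoot ζ₀ a) :
    ((ee (1 : K)) ^ a - 1) * HH K a = C (a : K) * X * ((ee (1 : K)) ^ a + 1) := by
  set M := Polynomial.nthRootsFinset a (1 : K) with hM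
  set e := ee (1 : K) with he
  have h1M : (1 : K) ∈ M := by rw [hM, Polynomial.mem_nthRootsFinset ha, one_pow]
  have hprod : e ^ a - 1 = ∏ y ∈ M, (e - C y) := by
    have h := congrArg (Polynomial.aeval e) (Polynomial.X_pow_sub_one_eq_prod ha hζ)
    simpa [PowerSeries.algebraMap_apply] using h
  have hsum : ∑ x ∈ M, (e + C x) * ∏ y ∈ M.erase x, (e - C y) = C (a : K) * (e ^ a + 1) := by
    have h := congrArg (Polynomial.aeval e) (sum_roots ha hζ)
    simpa [PowerSeries.algebraMap_apply] using h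
  have hX : (e - 1) * (uu K)⁻¹ = X := by
    rw [he, uu_spec, mul_assoc, uu_inv, mul_one]
  have e1 : (e ^ a - 1) * H1 K = X * ((e + C 1) * ∏ y ∈ M.erase 1, (e - C y)) := by
    rw [hprod, ← mul_prod_erase M _ h1M, H1, ← he, map_one]
    linear_combination (e + 1) * (∏ y ∈ M.erase 1, (e - C y)) * hX
  have e2 : ∀ x ∈ M.erase 1, (e ^ a - 1) * (X * cz x) = X * ((e + C x) * ∏ y ∈ M.erase x, (e - C y)) := by
    intro x hx
    rw [mem_erase] at hx
    have h := ez_inv hx.1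
    rw [hprod, ← mul_prod_erase M _ hx.2, cz, ← he]
    rw [← he] at h
    linear_combination X * (e + C x) * (∏ y ∈ M.erase x, (e - C y)) * h
  have e3 : (e ^ a - 1) * HH K a = X * ∑ x ∈ M, (e + C x) * ∏ y ∈ M.erase x, (e - C y) := by
    rw [HH, mul_add, e1, mul_sum, mul_sum]
    have : mu K a = M.erase 1 := rfl
    rw [this, sum_congr rfl e2, ← add_sum_erase M _ h1M, mul_add, ← mul_sum]
  rw [e3, hsum]
  ring

section Chp

variable {p : ℕ} [Fact p.Prime] [Algebra (ZMod p) K]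

/-- the series `(a t / 2) coth (a t / 2)` over `K` -/
noncomputable def YK (p : ℕ) [Fact p.Prime] (K : Type) [Field K] [Algebra (ZMod p) K] (a : K) :
    PowerSeries K := rescale a (bb p) + C (a / 2) * X

omit [DecidableEq K] in
lemma qmee (N : ℕ) (hN : N ≤ p) (e : ℕ) : qm K N (ee (e : K)) = (qm K N (ee 1)) ^ e := by
  have _ : CharP K p := charP_of_injective_algebraMap (algebraMap (ZMod p) K).injective p
  induction e with
  | zero => rw [Nat.cast_zero, ee_zero, map_one, pow_zero]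
  | succ e ih => rw [Nat.cast_succ, qm_ee_add p N hN, ih, pow_succ]

omit [DecidableEq K] in
lemma YK_rel (N : ℕ) (hN : N ≤ p) (h20 : (2 : K) ≠ 0) (a : K) :
    (qm K N (ee a) - 1) * qm K N (YK p K a) = qm K N (C (a / 2) * X) * (qm K N (ee a) + 1) := by
  have h := bb_rec' (K := K) p N hN a
  have e : (C a * X : PowerSeries K) = C (a / 2) * X + C (a / 2) * X := by
    rw [← add_mul, ← map_add]
    congr 2
    field_simp
    ring
  rw [YK, map_add, mul_add, h, e, map_add]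
  ring

omit [DecidableEq K] in
lemma YK_odd (h3 : 3 ≤ p) (a : K) (m : ℕ) : coeff (2 * m + 1) (YK p K a) = 0 := by
  rw [YK, map_add, coeff_rescale, bb, coeff_mk, coeff_C_mul, coeff_X]
  rcases Nat.eq_zero_or_pos m with rfl | hm
  · rw [Nat.mul_zero, Nat.zero_add, if_pos rfl, cc_one p h3, map_neg, map_inv₀, map_ofNat]
    ring
  · rw [if_neg (by omega)]
    have hb : _root_.bernoulli (2 * m + 1) = 0 := bernoulli_eq_zero_of_odd ⟨m, rfl⟩ (by omega)
    unfold Pool.Agent.H332R2.cc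
    rw [hb]
    simp

omit [DecidableEq K] in
lemma YK_even (a : K) (m : ℕ) : coeff (2 * m) (YK p K a) = a ^ (2 * m) * algebraMap (ZMod p) K (cc p (2 * m)) := by
  rw [YK, map_add, coeff_rescale, bb, coeff_mk, coeff_C_mul, coeff_X, if_neg (by omega)]
  simp

omit [DecidableEq K] in
lemma YK_prod_zero (h3 : 3 ≤ p) (a b : K) (N : ℕ)
    (h : ∀ i, i ≤ N → ww p N i = 0) : coeff (2 * N) (YK p K a * YK p K b) = 0 := by
  rw [coeff_mul]
  refine sum_eq_zero fun x hx => ?_
  rw [HasAntidiagonal.mem_antidiagonal] at hx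
  rcases Nat.even_or_odd' x.1 with ⟨i, hi | hi⟩
  · rcases Nat.even_or_odd' x.2 with ⟨j, hj | hj⟩
    · have h4 := h i (by omega)
      unfold ww at h4
      have e : N - i = j := by omega
      rw [e] at h4
      rw [hi, hj, YK_even, YK_even]
      calc a ^ (2 * i) * algebraMap (ZMod p) K (cc p (2 * i)) *
            (b ^ (2 * j) * algebraMap (ZMod p) K (cc p (2 * j))) =
          a ^ (2 * i) * b ^ (2 * j) * algebraMap (ZMod p) K (cc p (2 * i) * cc p (2 * j)) := by
            rw [map_mul]; ring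
        _ = 0 := by rw [h4, map_zero, mul_zero]
    · rw [hj, YK_odd h3, mul_zero]
  · rw [hi, YK_odd h3, zero_mul]

lemma HH_YK (h20 : (2 : K) ≠ 0) {a : ℕ} (ha : (a : K) ≠ 0) {ζ₀ : K} (hζ : IsPrimitiveRoot ζ₀ a) :
    X ^ (p - 1) ∣ HH K a - 2 * YK p K (a : K) := by
  have hp1 : 1 ≤ p := (Fact.out : p.Prime).one_le
  have ha0 : 0 < a := by
    rcases Nat.eq_zero_or_pos a with h | h
    · rw [h] at ha; simp at ha
    · exact h
  have h1 := HH_rel ha0 hζ
  have h2 := YK_rel (p := p) p le_rfl h20 (a : K)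
  rw [qmee p le_rfl] at h2
  have h3 : qm K p (((ee (1 : K)) ^ a - 1) * (HH K a - 2 * YK p K (a : K))) = 0 := by
    rw [mul_sub, h1]
    have e : (C (a : K) * X : PowerSeries K) = 2 * (C ((a : K) / 2) * X) := by
      rw [← mul_assoc]
      congr 1
      have : (2 : PowerSeries K) = C 2 := (map_ofNat C 2).symm
      rw [this, ← map_mul]
      congr 1
      field_simp
    rw [e]
    simp only [map_sub, map_mul, map_add, map_pow, map_one, map_ofNat] at h2 ⊢
    linear_combination (-2) * h2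
  rw [← map_zero (qm K p), qm_eq_iff] at h3
  have h4 : X ^ p ∣ ((ee (1 : K)) ^ a - 1) * (HH K a - 2 * YK p K (a : K)) := by
    rw [X_pow_dvd_iff]
    intro m hm
    rw [h3 m hm, map_zero]
  -- `e^a - 1 = X * unit`
  have h5 : ∃ v : PowerSeries K, (ee (1 : K)) ^ a - 1 = X * v ∧ IsUnit v := by
    refine ⟨uu K * ∑ i ∈ range a, (ee (1 : K)) ^ i, ?_, ?_⟩
    · rw [← mul_assoc, ← uu_spec, mul_geom_sum]
    · rw [PowerSeries.isUnit_iff_constantCoeff, map_mul, uu_const, map_sum]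
      simp only [map_pow, ee_const, one_pow, sum_const, card_range, nsmul_eq_mul, mul_one, one_mul]
      exact isUnit_iff_ne_zero.2 ha
  obtain ⟨v, hv, hvu⟩ := h5
  rw [hv, mul_assoc] at h4
  have h6 : (X : PowerSeries K) ^ p = X * X ^ (p - 1) := by
    rw [← pow_succ']
    congr 1
    omega
  rw [h6] at h4
  have h7 := (mul_dvd_mul_iff_left (X_ne_zero (R := K))).1 h4
  exact (hvu.dvd_mul_left).1 h7

lemma HH_prod_zero (h20 : (2 : K) ≠ 0) (h3 : 3 ≤ p) {a b N : ℕ} (ha : (a : K) ≠ 0) (hb : (b : K) ≠ 0)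
    {ζ₀ η₀ : K} (hζ : IsPrimitiveRoot ζ₀ a) (hη : IsPrimitiveRoot η₀ b) (hN : 2 * N + 1 < p)
    (h : ∀ i, i ≤ N → ww p N i = 0) : coeff (2 * N) (HH K a * HH K b) = 0 := by
  have h1 := HH_YK (p := p) h20 ha hζ
  have h2 := HH_YK (p := p) h20 hb hη
  have h4 : X ^ (p - 1) ∣ HH K a * HH K b - 4 * (YK p K (a : K) * YK p K (b : K)) := by
    have e : HH K a * HH K b - 4 * (YK p K (a : K) * YK p K (b : K)) =
        (HH K a - 2 * YK p K (a : K)) * HH K b + 2 * YK p K (a : K) * (HH K b - 2 * YK p K (b : K)) := by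
      ring
    rw [e]
    exact dvd_add (h1.mul_right _) (h2.mul_left _)
  rw [X_pow_dvd_iff] at h4
  have h5 := h4 (2 * N) (by omega)
  have h6 := YK_prod_zero (K := K) h3 (a : K) (b : K) N h
  have h7 : coeff (2 * N) (4 * (YK p K (a : K) * YK p K (b : K))) = 0 := by
    have : (4 : PowerSeries K) = C 4 := (map_ofNat C 4).symm
    rw [this, coeff_C_mul, h6, mul_zero]
  rw [map_sub, h7, sub_zero] at h5
  exact h5

end Chp

/-- coefficient of `(e^x + ζ)/(e^x - ζ)` -/
noncomputable def DD (n : ℕ) (ζ : K) : K := coeff n (cz ζ)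

/-- generalised Dedekind sum -/
noncomputable def EE (n a b : ℕ) : K := ∑ x ∈ mu K a, kap (x ^ b) * DD n x

lemma recip {p : ℕ} [Fact p.Prime] [Algebra (ZMod p) K] (h20 : (2 : K) ≠ 0) (h3 : 3 ≤ p) {a b N : ℕ}
    (ha : (a : K) ≠ 0) (hb : (b : K) ≠ 0)
    {ζ₀ η₀ : K} (hζ : IsPrimitiveRoot ζ₀ a) (hη : IsPrimitiveRoot η₀ b) (hab : Nat.Coprime a b)
    (hN2 : 2 ≤ N) (hN : 2 * N + 1 < p) (h : ∀ i, i ≤ N → ww p N i = 0) :
    (b : K) * EE (K := K) (2 * N - 2) a b + (a : K) * EE (K := K) (2 * N - 2) b a = 0 := by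
  have ha0 : 0 < a := by
    rcases Nat.eq_zero_or_pos a with h | h
    · rw [h] at ha; simp at ha
    · exact h
  have hb0 : 0 < b := by
    rcases Nat.eq_zero_or_pos b with h | h
    · rw [h] at hb; simp at hb
    · exact h
  obtain ⟨k, hk⟩ := HH_mul h20 ha0 hb0 hab hζ hη
  have h1 := HH_prod_zero (p := p) h20 h3 ha hb hζ hη hN h
  have hH1 : HH K 1 = H1 K := by
    have : mu K 1 = ∅ := by
      ext x
      rw [mem_mu one_pos, pow_one]
      simp
    rw [HH, this, sum_empty, mul_zero, add_zero]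
  have h11 : coeff (2 * N) (H1 K * H1 K) = 0 := by
    have h1K : ((1 : ℕ) : K) ≠ 0 := by simp
    have := HH_prod_zero (p := p) h20 h3 h1K h1K (IsPrimitiveRoot.one (M := K)) (IsPrimitiveRoot.one (M := K)) hN h
    rwa [hH1] at this
  have h4 := congrArg (coeff (2 * N)) hk
  obtain ⟨M, hM⟩ : ∃ M, 2 * N = M + 2 := ⟨2 * N - 2, by omega⟩
  have hM' : 2 * N - 2 = M := by omega
  rw [h1, map_add, map_add, h11, hM, coeff_X_pow_mul, coeff_X_pow_mul, coeff_C, if_neg (by omega), zero_add, zero_add,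
    map_add, map_sum, map_sum] at h4
  rw [hM', EE, EE, mul_sum, mul_sum]
  have e1 : ∀ x ∈ mu K a, (b : K) * (kap (x ^ b) * DD M x) = coeff M (C (b * kap (x ^ b)) * cz x) := by
    intro x _
    rw [coeff_C_mul, DD]; ring
  have e2 : ∀ x ∈ mu K b, (a : K) * (kap (x ^ a) * DD M x) = coeff M (C (a * kap (x ^ a)) * cz x) := by
    intro x _
    rw [coeff_C_mul, DD]; ring
  rw [sum_congr rfl e1, sum_congr rfl e2, ← h4]

end Pool.Agent.Run7.h263.RI
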