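import Mathlib
import Pool.Agent.Run7.h263.RI.Rec

/-!
# The descent: all generalised Dedekind sums vanish
-/

set_option autoImplicit false

namespace Pool.Agent.Run7.h263.RI

open Finset Pool.Agent.H582R5.RP Pool.Agent.H332R2 Pool.Agent.TH350.SumReg PowerSeries

variable {K : Type} [Field K] [DecidableEq K]

lemma prim_exists (p : ℕ) [Fact p.Prime] [Algebra (ZMod p) K] [IsAlgClosed K] {d : ℕ} (hd : 0 < d)
    (hpd : ¬ p ∣ d) : ∃ ζ : K, IsPrimitiveRoot ζ d := by
  have _ : CharP K p := charP_of_injective_algebraMap (algebraMap (ZMod p) K).injective p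
  have hne : NeZero (d : K) := by
    refine ⟨?_⟩
    rw [Ne, CharP.cast_eq_zero_iff K p]
    exact hpd
  obtain ⟨ζ, hζ⟩ : ∃ ζ : K, Polynomial.IsRoot (Polynomial.cyclotomic d K) ζ := by
    apply IsAlgClosed.exists_root
    rw [Polynomial.degree_cyclotomic]
    have := Nat.totient_pos.2 hd
    exact_mod_cast this.ne'
  exact ⟨ζ, Polynomial.isRoot_cyclotomic_iff.mp hζ⟩

lemma EE_mod (n : ℕ) {a : ℕ} (ha : 0 < a) (b : ℕ) : EE (K := K) n a b = EE n a (b % a) := by
  unfold EE
  refine sum_congr rfl fun x hx => ?_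
  rw [mem_mu ha] at hx
  rw [pow_eq_pow_mod b hx.2]

lemma EE_neg (n : ℕ) {a b : ℕ} (ha : 0 < a) (hb : b ≤ a) : EE (K := K) n a (a - b) = - EE n a b := by
  unfold EE
  rw [← sum_neg_distrib]
  refine sum_congr rfl fun x hx => ?_
  rw [mem_mu ha] at hx
  have hx0 : x ≠ 0 := by
    intro h0
    rw [h0, zero_pow (by omega)] at hx
    exact zero_ne_one hx.2
  have h1 : x ^ (a - b) = (x ^ b)⁻¹ := by
    apply eq_inv_of_mul_eq_one_left
    rw [← pow_add, Nat.sub_add_cancel hb, hx.2]
  rw [h1, kap_inv (pow_ne_zero _ hx0)]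
  ring

theorem EE_zero (p : ℕ) [Fact p.Prime] [Algebra (ZMod p) K] [IsAlgClosed K] {N : ℕ} (hN2 : 2 ≤ N)
    (hN : 2 * N + 3 ≤ p) (h : ∀ i, i ≤ N → ww p N i = 0) (a : ℕ) :
    0 < a → ¬ p ∣ a → ∀ b, Nat.Coprime a b → EE (K := K) (2 * N - 2) a b = 0 := by
  have _ : CharP K p := charP_of_injective_algebraMap (algebraMap (ZMod p) K).injective p
  have h20 : (2 : K) ≠ 0 := by
    intro h'
    have h'' : ((2 : ℕ) : K) = 0 := by exact_mod_cast h'
    rw [CharP.cast_eq_zero_iff K p] at h''
    have := Nat.le_of_dvd (by norm_num) h''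
    omega
  induction a using Nat.strong_induction_on with
  | _ a ih =>
    intro ha hpa b hab
    -- the main step
    have key : ∀ c, 0 < c → c < a → ¬ p ∣ c → Nat.Coprime a c → EE (K := K) (2 * N - 2) a c = 0 := by
      intro c hc0 hca hpc hac
      obtain ⟨ζ, hζ⟩ := prim_exists (K := K) p ha hpa
      obtain ⟨η, hη⟩ := prim_exists (K := K) p hc0 hpc
      have ha' : (a : K) ≠ 0 := by rwa [Ne, CharP.cast_eq_zero_iff K p]
      have hc' : (c : K) ≠ 0 := by rwa [Ne, CharP.cast_eq_zero_iff K p]
      have h1 := recip (p := p) h20 (by omega) ha' hc' hζ hη hac hN2 (by omega) h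
      rw [ih c hca hc0 hpc a hac.symm, mul_zero, add_zero] at h1
      exact (mul_eq_zero.1 h1).resolve_left hc'
    rcases Nat.lt_or_ge a 2 with h1 | h1
    · have : a = 1 := by omega
      subst this
      have : mu K 1 = ∅ := by
        ext x
        rw [mem_mu one_pos, pow_one]
        simp
      rw [EE, this, sum_empty]
    · rw [EE_mod _ ha]
      have hab' : Nat.Coprime a (b % a) := by
        rw [Nat.coprime_comm, Nat.coprime_iff_gcd_eq_one, ← Nat.gcd_rec, Nat.gcd_comm] at *
        rw [← Nat.gcd_comm]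
        exact hab
      have hlt : b % a < a := Nat.mod_lt _ ha
      have hpos : 0 < b % a := by
        rcases Nat.eq_zero_or_pos (b % a) with h0 | h0
        · rw [h0, Nat.coprime_zero_right] at hab'
          omega
        · exact h0
      set c := b % a with hc
      by_cases hpc : p ∣ c
      · have h2 := EE_neg (K := K) (2 * N - 2) ha hlt.le
        rw [key (a - c) (by omega) (by omega) ?_ ?_] at h2
        · exact neg_eq_zero.1 h2.symm
        · intro h3
          apply hpa
          have : a = (a - c) + c := by omega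
          rw [this]
          exact dvd_add h3 hpc
        · rw [Nat.coprime_self_sub_right hlt.le]
          exact hab'
      · exact key c hpos hlt hpc hab'

end Pool.Agent.Run7.h263.RI
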