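import Mathlib

/-!
# Primitive `3^(n+1)`-th roots of unity and powers of `4`
-/

set_option autoImplicit false

namespace Pool.Agent.Run7.h263.RI

open Finset

variable {K : Type} [Field K] [DecidableEq K]

omit [DecidableEq K] in

lemma prim_pow_eq_iff {ζ : K} {q : ℕ} (hq : 0 < q) (hζ : IsPrimitiveRoot ζ q) (A B : ℕ) :
    ζ ^ A = ζ ^ B ↔ ((A : ℕ) : ZMod q) = ((B : ℕ) : ZMod q) := by
  have hf : IsOfFinOrder ζ := isOfFinOrder_iff_pow_eq_one.2 ⟨q, hq, hζ.pow_eq_one⟩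
  rw [ZMod.natCast_eq_natCast_iff, hf.pow_eq_pow_iff_modEq, ← hζ.eq_orderOf]

lemma order_four (n : ℕ) : orderOf (4 : ZMod (3 ^ (n + 1))) = 3 ^ n := by
  have h := ZMod.orderOf_one_add_prime Nat.prime_three (by norm_num) n
  have e : (1 + ((3 : ℕ) : ZMod (3 ^ (n + 1)))) = 4 := by push_cast; norm_num
  rw [e] at h
  exact h

omit [DecidableEq K] in
lemma pow4_inj {ζ : K} {n : ℕ} (hζ : IsPrimitiveRoot ζ (3 ^ (n + 1))) {i j : ℕ} (hi : i < 3 ^ n)
    (hj : j < 3 ^ n) (h : ζ ^ (4 ^ i) = ζ ^ (4 ^ j)) : i = j := by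
  rw [prim_pow_eq_iff (by positivity) hζ] at h
  push_cast at h
  refine pow_injOn_Iio_orderOf (x := (4 : ZMod (3 ^ (n + 1)))) ?_ ?_ h
  · rw [Set.mem_Iio, order_four]; exact hi
  · rw [Set.mem_Iio, order_four]; exact hj

omit [DecidableEq K] in
lemma pow4_period {ζ : K} {n : ℕ} (hζ : IsPrimitiveRoot ζ (3 ^ (n + 1))) (i : ℕ) :
    ζ ^ (4 ^ (i + 3 ^ n)) = ζ ^ (4 ^ i) := by
  rw [prim_pow_eq_iff (by positivity) hζ]
  have h : (4 : ZMod (3 ^ (n + 1))) ^ (3 ^ n) = 1 := by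
    rw [← order_four n]; exact pow_orderOf_eq_one _
  rw [pow_add 4 i (3 ^ n), Nat.cast_mul]
  push_cast
  rw [h, mul_one]

lemma pow4_modEq (k : ℕ) : (4 : ℕ) ^ (3 ^ k) ≡ 1 [MOD 3 ^ (k + 1)] := by
  rw [← ZMod.natCast_eq_natCast_iff]
  push_cast
  rw [← order_four k]
  exact pow_orderOf_eq_one _

lemma pow4_mod3 (i : ℕ) : (4 : ℕ) ^ i % 3 = 1 := by
  rw [Nat.pow_mod]; simp

lemma pow4_coprime (i n : ℕ) : Nat.Coprime (4 ^ i) (3 ^ n) := by
  apply Nat.Coprime.pow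
  norm_num

theorem prim_union {ζ : K} {n : ℕ} (hζ : IsPrimitiveRoot ζ (3 ^ (n + 1))) :
    primitiveRoots (3 ^ (n + 1)) K =
      (range (3 ^ n)).image (fun i => ζ ^ (4 ^ i)) ∪ (range (3 ^ n)).image (fun i => (ζ ^ (4 ^ i))⁻¹) := by
  symm
  have hpos : 0 < 3 ^ (n + 1) := by positivity
  apply Finset.eq_of_subset_of_card_le
  · intro x hx
    rw [mem_union, mem_image, mem_image] at hx
    rw [mem_primitiveRoots hpos]
    rcases hx with ⟨i, -, rfl⟩ | ⟨i, -, rfl⟩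
    · exact hζ.pow_of_coprime _ (pow4_coprime i (n + 1))
    · exact (hζ.pow_of_coprime _ (pow4_coprime i (n + 1))).inv
  · rw [hζ.card_primitiveRoots, card_union_of_disjoint, card_image_of_injOn, card_image_of_injOn, card_range,
      Nat.totient_prime_pow_succ Nat.prime_three]
    · omega
    · intro i hi j hj h
      exact pow4_inj hζ (by simpa using hi) (by simpa using hj) (inv_injective h)
    · intro i hi j hj h
      exact pow4_inj hζ (by simpa using hi) (by simpa using hj) h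
    · rw [disjoint_left]
      intro x hx hy
      rw [mem_image] at hx hy
      obtain ⟨i, -, rfl⟩ := hx
      obtain ⟨j, -, h⟩ := hy
      have h0 : ζ ≠ 0 := hζ.ne_zero hpos.ne'
      have h1 : ζ ^ (4 ^ i + 4 ^ j) = 1 := by
        rw [pow_add, ← h, inv_mul_cancel₀ (pow_ne_zero _ h0)]
      rw [hζ.pow_eq_one_iff_dvd] at h1
      have h2 : 3 ∣ 4 ^ i + 4 ^ j := (dvd_pow_self 3 (by omega)).trans h1
      have h3 := pow4_mod3 i
      have h4 := pow4_mod3 j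
      omega

lemma prim_disj {ζ : K} {n : ℕ} (hζ : IsPrimitiveRoot ζ (3 ^ (n + 1))) :
    Disjoint ((range (3 ^ n)).image (fun i => ζ ^ (4 ^ i)))
      ((range (3 ^ n)).image (fun i => (ζ ^ (4 ^ i))⁻¹)) := by
  have hpos : 0 < 3 ^ (n + 1) := by positivity
  rw [disjoint_left]
  intro x hx hy
  rw [mem_image] at hx hy
  obtain ⟨i, -, rfl⟩ := hx
  obtain ⟨j, -, h⟩ := hy
  have h0 : ζ ≠ 0 := hζ.ne_zero hpos.ne'
  have h1 : ζ ^ (4 ^ i + 4 ^ j) = 1 := by
    rw [pow_add, ← h, inv_mul_cancel₀ (pow_ne_zero _ h0)]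
  rw [hζ.pow_eq_one_iff_dvd] at h1
  have h2 : 3 ∣ 4 ^ i + 4 ^ j := (dvd_pow_self 3 (by omega)).trans h1
  have h3 := pow4_mod3 i
  have h4 := pow4_mod3 j
  omega

/-- sums of even functions over the primitive roots of unity -/
theorem sum_prim {ζ : K} {n : ℕ} (hζ : IsPrimitiveRoot ζ (3 ^ (n + 1))) (f : K → K)
    (hf : ∀ x, f x⁻¹ = f x) :
    ∑ x ∈ primitiveRoots (3 ^ (n + 1)) K, f x = 2 * ∑ i ∈ range (3 ^ n), f (ζ ^ (4 ^ i)) := by
  rw [prim_union hζ, sum_union (prim_disj hζ), sum_image, sum_image, two_mul]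
  · congr 1
    exact sum_congr rfl fun i _ => hf _
  · intro i hi j hj h
    exact pow4_inj hζ (by simpa using hi) (by simpa using hj) (inv_injective h)
  · intro i hi j hj h
    exact pow4_inj hζ (by simpa using hi) (by simpa using hj) h

/-- a number `Q ≡ 1 mod 3` is a power of `4` modulo `3^(n+1)` -/
lemma exists_pow4 {ζ : K} {n : ℕ} (hζ : IsPrimitiveRoot ζ (3 ^ (n + 1))) (Q : ℕ) (hQ : Q % 3 = 1) :
    ∃ s, ζ ^ Q = ζ ^ (4 ^ s) := by
  have hpos : 0 < 3 ^ (n + 1) := by positivity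
  have h0 : ζ ≠ 0 := hζ.ne_zero hpos.ne'
  have hcop : Nat.Coprime Q (3 ^ (n + 1)) := by
    apply Nat.Coprime.pow_right
    rw [Nat.coprime_comm, Nat.Prime.coprime_iff_not_dvd Nat.prime_three]
    omega
  have h1 : ζ ^ Q ∈ primitiveRoots (3 ^ (n + 1)) K := by
    rw [mem_primitiveRoots hpos]
    exact hζ.pow_of_coprime _ hcop
  rw [prim_union hζ, mem_union, mem_image, mem_image] at h1
  rcases h1 with ⟨i, -, h⟩ | ⟨i, -, h⟩
  · exact ⟨i, h.symm⟩
  · exfalso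
    have h1 : ζ ^ (Q + 4 ^ i) = 1 := by
      rw [pow_add, ← h, inv_mul_cancel₀ (pow_ne_zero _ h0)]
    rw [hζ.pow_eq_one_iff_dvd] at h1
    have h2 : 3 ∣ Q + 4 ^ i := (dvd_pow_self 3 (by omega)).trans h1
    have h3 := pow4_mod3 i
    omega

omit [DecidableEq K] in
/-- periodic shift -/
lemma sum_shift (h : ℕ → K) (M : ℕ) (hper : ∀ i, h (i + M) = h i) (s : ℕ) :
    ∑ i ∈ range M, h (i + s) = ∑ i ∈ range M, h i := by
  induction s with
  | zero => simp
  | succ s ih =>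
    rw [← ih]
    have h1 := Finset.sum_range_succ (fun i => h (i + s)) M
    have h2 := Finset.sum_range_succ' (fun i => h (i + s)) M
    rw [h1] at h2
    have h3 : h (M + s) = h s := by rw [add_comm]; exact hper s
    simp only [Nat.zero_add] at h2
    rw [h3] at h2
    have h4 := add_right_cancel h2
    rw [h4]
    refine sum_congr rfl fun i _ => ?_
    congr 1
    ring

omit [DecidableEq K] in
/-- block decomposition of a range -/
lemma sum_blocks (f : ℕ → K) (L n : ℕ) :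
    ∑ i ∈ range (n * L), f i = ∑ j ∈ range n, ∑ r ∈ range L, f (r + L * j) := by
  induction n with
  | zero => simp
  | succ n ih =>
    rw [sum_range_succ, ← ih, Nat.succ_mul, sum_range_add]
    congr 1
    refine sum_congr rfl fun r _ => ?_
    congr 1
    ring

omit [DecidableEq K] in
lemma orbit_inj {ω : K} {c l q Q : ℕ} (hc : 1 ≤ c) (hω : IsPrimitiveRoot ω (3 ^ (l + c)))
    (hQ : Q = 1 + 3 ^ c * q) (hq : ¬ 3 ∣ q) {i j : ℕ} (hi : i < 3 ^ l) (hj : j < 3 ^ l)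
    (h : ω ^ (Q ^ i) = ω ^ (Q ^ j)) : i = j := by
  rw [prim_pow_eq_iff (by positivity) hω] at h
  push_cast at h
  have ho : orderOf ((Q : ℕ) : ZMod (3 ^ (l + c))) = 3 ^ l := by
    have h1 := ZMod.orderOf_one_add_mul_prime_pow Nat.prime_three c (by omega) (by omega) (q : ℤ)
      (by exact_mod_cast hq) l
    have e : (1 + ((3 : ℕ) : ZMod (3 ^ (l + c))) ^ c * ((q : ℤ) : ZMod (3 ^ (l + c)))) = ((Q : ℕ) : ZMod (3 ^ (l + c))) := by
      rw [hQ]; push_cast; ring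
    rw [e] at h1
    exact h1
  refine pow_injOn_Iio_orderOf (x := ((Q : ℕ) : ZMod (3 ^ (l + c)))) ?_ ?_ h
  · rw [Set.mem_Iio, ho]; exact hi
  · rw [Set.mem_Iio, ho]; exact hj

omit [DecidableEq K] in
lemma orbit_pow {ω : K} {c l q Q : ℕ} (hω : IsPrimitiveRoot ω (3 ^ (l + c)))
    (hQ : Q = 1 + 3 ^ c * q) (j : ℕ) : (ω ^ (Q ^ j)) ^ (3 ^ l) = ω ^ (3 ^ l) := by
  rw [← pow_mul, prim_pow_eq_iff (by positivity) hω, ZMod.natCast_eq_natCast_iff]
  have h1 : Q ≡ 1 [MOD 3 ^ c] := by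
    rw [hQ]
    have : (3 ^ c * q) ≡ 0 [MOD 3 ^ c] := (Nat.modEq_zero_iff_dvd).2 (dvd_mul_right _ _)
    simpa using this.add_left 1
  have h2 : Q ^ j ≡ 1 [MOD 3 ^ c] := by simpa using h1.pow j
  have h3 := h2.mul_right' (3 ^ l)
  rw [one_mul, ← pow_add, add_comm c l] at h3
  exact h3

end Pool.Agent.Run7.h263.RI
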