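import Mathlib
import Pool.Agent.Run7.h263.RI.Pow4

/-!
# Nonvanishing of character sums of rational functions of roots of unity in characteristic `p`
-/

set_option autoImplicit false

namespace Pool.Agent.Run7.h263.RI

open Finset Polynomial

variable {p : ℕ} [Fact p.Prime] {K : Type} [Field K] [Algebra (ZMod p) K]

/-- the value `P(1/(1-x))` -/
noncomputable def Ph (P : (ZMod p)[X]) (x : K) : K := aeval (1 - x)⁻¹ P

lemma Ph_pow (P : (ZMod p)[X]) (x : K) : (Ph P x) ^ p = Ph P (x ^ p) := by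
  have _ : CharP K p := charP_of_injective_algebraMap (algebraMap (ZMod p) K).injective p
  have h1 : ((1 - x)⁻¹) ^ p = (1 - x ^ p)⁻¹ := by
    rw [inv_pow, sub_pow_char, one_pow]
  unfold Ph
  rw [← h1, ← map_pow, ← ZMod.expand_card, expand_aeval]

lemma Ph_pow_sq (P : (ZMod p)[X]) (x : K) : (Ph P x) ^ (p ^ 2) = Ph P (x ^ (p ^ 2)) := by
  rw [pow_two, pow_mul, Ph_pow, Ph_pow, ← pow_mul]

lemma Ph_reverse (P : (ZMod p)[X]) (y : K) (hy : y ≠ 0) :
    aeval y P.reverse = y ^ P.natDegree * aeval y⁻¹ P := by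
  let _ : Invertible (y⁻¹) := invertibleOfNonzero (inv_ne_zero hy)
  have h := eval₂_reverse_mul_pow (algebraMap (ZMod p) K) (y⁻¹) P
  have e : ⅟(y⁻¹) = y := by rw [invOf_eq_inv, inv_inv]
  rw [e] at h
  rw [aeval_def, aeval_def, ← h]
  have h0 : y ^ P.natDegree ≠ 0 := pow_ne_zero _ hy
  rw [inv_pow]
  field_simp

/-- twisted sums -/
noncomputable def SS (P : (ZMod p)[X]) (ζ : K) (M : ℕ) (x : K) : K :=
  ∑ i ∈ range M, x ^ i * Ph P (ζ ^ (4 ^ i))

lemma SS_frob [DecidableEq K] (P : (ZMod p)[X]) {ζ : K} {n : ℕ} (hζ : IsPrimitiveRoot ζ (3 ^ (n + 1)))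
    (hp : (p ^ 2) % 3 = 1) (x : K) (hx : x ^ (3 ^ n) = 1) (h : SS P ζ (3 ^ n) x = 0) :
    SS P ζ (3 ^ n) (x ^ (p ^ 2)) = 0 := by
  have _ : CharP K p := charP_of_injective_algebraMap (algebraMap (ZMod p) K).injective p
  obtain ⟨s, hs⟩ := exists_pow4 hζ (p ^ 2) hp
  have h1 : (SS P ζ (3 ^ n) x) ^ (p ^ 2) = 0 := by
    rw [h, zero_pow (pow_ne_zero _ (Fact.out : p.Prime).ne_zero)]
  unfold SS at h1
  rw [sum_pow_char_pow] at h1
  have h2 : ∀ i, (x ^ i * Ph P (ζ ^ (4 ^ i))) ^ (p ^ 2) =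
      (x ^ (p ^ 2)) ^ i * Ph P (ζ ^ (4 ^ (i + s))) := by
    intro i
    have a1 : (x ^ i) ^ (p ^ 2) = (x ^ (p ^ 2)) ^ i := by rw [← pow_mul, ← pow_mul, mul_comm]
    have a2 : (ζ ^ (4 ^ i)) ^ (p ^ 2) = ζ ^ (4 ^ (i + s)) := by
      rw [← pow_mul, mul_comm, pow_mul, hs, ← pow_mul, ← pow_add, add_comm]
    rw [mul_pow, Ph_pow_sq, a1, a2]
  rw [sum_congr rfl (fun i _ => h2 i)] at h1
  set y := x ^ (p ^ 2) with hy
  have hyM : y ^ (3 ^ n) = 1 := by
    rw [hy, ← pow_mul, mul_comm, pow_mul, hx, one_pow]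
  have h3 := sum_shift (fun i => y ^ i * Ph P (ζ ^ (4 ^ i))) (3 ^ n) (fun i => by
    rw [pow4_period hζ, pow_add, hyM, mul_one]) s
  unfold SS
  rw [← h3]
  have h4 : ∀ i, y ^ (i + s) * Ph P (ζ ^ (4 ^ (i + s))) =
      y ^ s * (y ^ i * Ph P (ζ ^ (4 ^ (i + s)))) := by
    intro i
    rw [pow_add]; ring
  rw [sum_congr rfl (fun i _ => h4 i), ← mul_sum, h1, mul_zero]

lemma SS_orbit [DecidableEq K] (P : (ZMod p)[X]) {ζ ω : K} {n : ℕ} (hζ : IsPrimitiveRoot ζ (3 ^ (n + 1)))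
    (hp : (p ^ 2) % 3 = 1) (hω : ω ^ (3 ^ n) = 1) (h : SS P ζ (3 ^ n) ω = 0) (j : ℕ) :
    SS P ζ (3 ^ n) (ω ^ ((p ^ 2) ^ j)) = 0 := by
  induction j with
  | zero => simpa using h
  | succ j ih =>
    rw [pow_succ, pow_mul]
    refine SS_frob P hζ hp _ ?_ ih
    rw [← pow_mul, mul_comm, pow_mul, hω, one_pow]

/-- the partial sums over the classes modulo `L` vanish -/
lemma blocks_zero [DecidableEq K] (P : (ZMod p)[X]) {ζ ω : K} {c l q : ℕ} (hc : 1 ≤ c)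
    (hζ : IsPrimitiveRoot ζ (3 ^ (l + c + 1))) (hω : IsPrimitiveRoot ω (3 ^ (l + c)))
    (hQ : p ^ 2 = 1 + 3 ^ c * q) (hq : ¬ 3 ∣ q)
    (h : SS P ζ (3 ^ (l + c)) ω = 0) (r : ℕ) (hr : r < 3 ^ l) :
    ∑ j ∈ range (3 ^ c), ω ^ (3 ^ l * j) * Ph P (ζ ^ (4 ^ (r + 3 ^ l * j))) = 0 := by
  have hp3 : (p ^ 2) % 3 = 1 := by
    rw [hQ]
    obtain ⟨c', rfl⟩ : ∃ c', c = c' + 1 := ⟨c - 1, by omega⟩
    rw [pow_succ, mul_assoc, mul_comm, mul_assoc, Nat.add_mul_mod_self_left]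
  set G : ℕ → K := fun r => ∑ j ∈ range (3 ^ c), ω ^ (3 ^ l * j) * Ph P (ζ ^ (4 ^ (r + 3 ^ l * j))) with hG
  set R : K[X] := ∑ r ∈ range (3 ^ l), C (G r) * X ^ r with hR
  have hRd : R.natDegree < 3 ^ l := by
    have : R.natDegree ≤ 3 ^ l - 1 := by
      refine natDegree_sum_le_of_forall_le _ _ (fun i hi => ?_)
      rw [mem_range] at hi
      exact (natDegree_C_mul_X_pow_le _ _).trans (by omega)
    have h0 : 0 < 3 ^ l := by positivity
    omega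
  have hR0 : R = 0 := by
    apply Polynomial.eq_zero_of_natDegree_lt_card_of_eval_eq_zero
      (f := fun j : Fin (3 ^ l) => ω ^ ((p ^ 2) ^ (j : ℕ)))
    · intro i j hij
      exact Fin.ext (orbit_inj hc hω hQ hq i.2 j.2 hij)
    · intro j
      have h1 := SS_orbit P hζ hp3 hω.pow_eq_one h (j : ℕ)
      have h2 : (ω ^ ((p ^ 2) ^ (j : ℕ))) ^ (3 ^ l) = ω ^ (3 ^ l) := orbit_pow hω hQ _
      set x := ω ^ ((p ^ 2) ^ (j : ℕ)) with hx
      rw [hR, eval_finsetSum]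
      unfold SS at h1
      have h3 : 3 ^ (l + c) = 3 ^ c * 3 ^ l := by rw [pow_add, mul_comm]
      rw [h3, sum_blocks, sum_comm] at h1
      rw [← h1]
      refine sum_congr rfl fun r _ => ?_
      simp only [eval_mul, eval_C, eval_pow, eval_X]
      rw [hG]
      simp only
      rw [sum_mul]
      refine sum_congr rfl fun j _ => ?_
      rw [pow_add x, pow_mul x, h2, ← pow_mul ω]
      ring
    · rw [Fintype.card_fin]; exact hRd
  have h4 := congrArg (fun f => f.coeff r) hR0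
  simp only [hR, finsetSum_coeff, coeff_C_mul, coeff_X_pow, coeff_zero] at h4
  rw [Finset.sum_eq_single r] at h4
  · simpa using h4
  · intro b _ hb
    rw [if_neg (Ne.symm hb), mul_zero]
  · intro hn
    exact absurd (mem_range.2 hr) hn


end Pool.Agent.Run7.h263.RI
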