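import Mathlib
import Pool.Agent.Run7.h263.RI.NV

/-!
# The nonvanishing theorem
-/

set_option autoImplicit false

namespace Pool.Agent.Run7.h263.RI

open Finset Polynomial

variable {p : ℕ} [Fact p.Prime] {K : Type} [Field K] [Algebra (ZMod p) K]

omit [Fact p.Prime] in
lemma pow_modEq_one {θ : K} {N A : ℕ} (hθ : θ ^ N = 1) (hA : A ≡ 1 [MOD N]) : θ ^ A = θ := by
  rw [pow_eq_pow_mod A hθ, hA, ← pow_eq_pow_mod 1 hθ, pow_one]

lemma four_pow_sub (l : ℕ) : 3 ^ (l + 1) ∣ 4 ^ (3 ^ l) - 1 :=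
  (Nat.modEq_iff_dvd' (Nat.one_le_pow _ _ (by norm_num))).1 (pow4_modEq l).symm

lemma theta_pow {ζ : K} {b l : ℕ} (hζ : IsPrimitiveRoot ζ (3 ^ (l + (b + 1) + 1))) :
    (ζ ^ (4 ^ (3 ^ l) - 1)) ^ (3 ^ (b + 1)) = 1 := by
  rw [← pow_mul, hζ.pow_eq_one_iff_dvd]
  have h : 3 ^ (l + (b + 1) + 1) = 3 ^ (l + 1) * 3 ^ (b + 1) := by ring
  rw [h]
  exact Nat.mul_dvd_mul_right (four_pow_sub l) _

lemma four_pow_one {b r : ℕ} (hr : 3 ^ b ∣ r) : (4 : ℕ) ^ r ≡ 1 [MOD 3 ^ (b + 1)] := by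
  obtain ⟨k, rfl⟩ := hr
  rw [pow_mul]
  simpa using (pow4_modEq b).pow k

lemma theta_step {ζ : K} {b l : ℕ} (hbl : b ≤ l) (hζ : IsPrimitiveRoot ζ (3 ^ (l + (b + 1) + 1))) (r : ℕ)
    (hr : 3 ^ b ∣ r) (j : ℕ) :
    ζ ^ (4 ^ (r + 3 ^ l * j)) = ζ ^ (4 ^ r) * (ζ ^ (4 ^ (3 ^ l) - 1)) ^ j := by
  set θ := ζ ^ (4 ^ (3 ^ l) - 1) with hθ
  have h1 : θ ^ (3 ^ (b + 1)) = 1 := theta_pow hζ
  have h2 : θ ^ (4 ^ r) = θ := pow_modEq_one h1 (four_pow_one hr)
  have h3 : θ ^ (4 ^ (3 ^ l)) = θ := pow_modEq_one h1 (four_pow_one (pow_dvd_pow 3 hbl))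
  induction j with
  | zero => simp
  | succ j ih =>
    have e : 4 ^ (r + 3 ^ l * (j + 1)) = 4 ^ (r + 3 ^ l * j) * 4 ^ (3 ^ l) := by
      rw [← pow_add]; congr 1; ring
    rw [e, pow_mul, ih, mul_pow, ← pow_mul θ, mul_comm j, pow_mul θ, h3, pow_succ θ j]
    have h4 : (ζ ^ 4 ^ r) ^ 4 ^ 3 ^ l = ζ ^ (4 ^ r) * θ := by
      have e1 : 4 ^ (3 ^ l) = 1 + (4 ^ (3 ^ l) - 1) := by
        have : 1 ≤ 4 ^ (3 ^ l) := Nat.one_le_pow _ _ (by norm_num)
        omega
      rw [e1, pow_add, pow_one]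
      congr 1
      rw [← pow_mul, mul_comm, pow_mul]
      exact h2
    rw [h4]
    ring

/-- Nonvanishing. -/
theorem nv [DecidableEq K] (P : (ZMod p)[X]) {ζ ω : K} {b l q : ℕ} (hbl : b ≤ l)
    (hζ : IsPrimitiveRoot ζ (3 ^ (l + (b + 1) + 1))) (hω : IsPrimitiveRoot ω (3 ^ (l + (b + 1))))
    (hQ : p ^ 2 = 1 + 3 ^ (b + 1) * q) (hq : ¬ 3 ∣ q) (hP : 1 ≤ P.natDegree)
    (hl : P.natDegree * 3 ^ (b + 1) < 3 ^ (l - b)) :
    SS P ζ (3 ^ (l + (b + 1))) ω ≠ 0 := by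
  intro h
  have hbz := blocks_zero P (by omega) hζ hω hQ hq h
  set θ := ζ ^ (4 ^ (3 ^ l) - 1) with hθ
  set d := P.natDegree with hd
  have hpos : 0 < 3 ^ (l + (b + 1) + 1) := by positivity
  have hstep := theta_step hbl hζ
  rw [← hθ] at hstep
  -- powers of zeta are not one
  have hne : ∀ i, ζ ^ (4 ^ i) ≠ 1 := by
    intro i hi
    have h1 := hζ.pow_of_coprime _ (pow4_coprime i (l + (b + 1) + 1))
    rw [hi] at h1
    have h2 := IsPrimitiveRoot.unique h1 IsPrimitiveRoot.one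
    have h3 : 1 < 3 ^ (l + (b + 1) + 1) := Nat.one_lt_pow (by omega) (by norm_num)
    omega
  have hθne : ∀ i, 0 < i → i < 3 ^ (b + 1) → θ ^ i ≠ 1 := by
    intro i hi0 hi h1
    have h2 := hstep 0 (dvd_zero _) i
    rw [h1, mul_one] at h2
    have h3 := pow4_inj hζ (i := 0 + 3 ^ l * i) (j := 0) ?_ (by positivity) h2
    · have : 0 < 3 ^ l * i := by positivity
      omega
    · rw [Nat.zero_add, pow_add]
      exact Nat.mul_lt_mul_of_pos_left hi (by positivity)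
  set W : K[X] := ∑ j ∈ range (3 ^ (b + 1)), C (ω ^ (3 ^ l * j)) *
    ((P.reverse.map (algebraMap (ZMod p) K)).comp (1 - C (θ ^ j) * X)) *
    ∏ i ∈ (range (3 ^ (b + 1))).erase j, (1 - C (θ ^ i) * X) ^ d with hW
  have hlin : ∀ x : K, (1 - C x * X : K[X]).natDegree ≤ 1 := by
    intro x
    compute_degree
  have hWd : W.natDegree ≤ d * 3 ^ (b + 1) := by
    refine natDegree_sum_le_of_forall_le _ _ (fun j hj => ?_)
    refine natDegree_mul_le.trans ?_
    have h1 : (C (ω ^ (3 ^ l * j)) *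
      ((P.reverse.map (algebraMap (ZMod p) K)).comp (1 - C (θ ^ j) * X))).natDegree ≤ d := by
      refine (natDegree_C_mul_le _ _).trans ?_
      refine natDegree_comp_le.trans ?_
      have h2 : (P.reverse.map (algebraMap (ZMod p) K)).natDegree ≤ d :=
        natDegree_map_le.trans (reverse_natDegree_le P)
      calc _ ≤ d * 1 := Nat.mul_le_mul h2 (hlin _)
        _ = d := mul_one d
    have h2 : (∏ i ∈ (range (3 ^ (b + 1))).erase j, (1 - C (θ ^ i) * X) ^ d : K[X]).natDegree ≤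
        (3 ^ (b + 1) - 1) * d := by
      refine (natDegree_prod_le _ _).trans ?_
      refine (sum_le_card_nsmul _ _ d (fun i _ => ?_)).trans ?_
      · refine natDegree_pow_le.trans ?_
        calc _ ≤ d * 1 := Nat.mul_le_mul_left d (hlin _)
          _ = d := mul_one d
      · rw [card_erase_of_mem hj, card_range, smul_eq_mul]
    have h3 : d + (3 ^ (b + 1) - 1) * d = d * 3 ^ (b + 1) := by
      have : 1 ≤ 3 ^ (b + 1) := Nat.one_le_pow _ _ (by norm_num)
      obtain ⟨t, ht⟩ : ∃ t, 3 ^ (b + 1) = t + 1 := ⟨3 ^ (b + 1) - 1, by omega⟩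
      rw [ht, Nat.add_sub_cancel]
      ring
    omega
  have hW0 : W = 0 := by
    apply Polynomial.eq_zero_of_natDegree_lt_card_of_eval_eq_zero
      (f := fun r : Fin (3 ^ (l - b)) => ζ ^ (4 ^ (3 ^ b * (r : ℕ))))
    · intro i j hij
      have hb : ∀ i : Fin (3 ^ (l - b)), 3 ^ b * (i : ℕ) < 3 ^ (l + (b + 1)) := by
        intro i
        have h1 : 3 ^ b * (i : ℕ) < 3 ^ b * 3 ^ (l - b) := Nat.mul_lt_mul_of_pos_left i.2 (by positivity)
        rw [← pow_add] at h1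
        refine h1.trans_le (Nat.pow_le_pow_right (by norm_num) (by omega))
      have h1 := pow4_inj hζ (hb i) (hb j) hij
      exact Fin.ext (Nat.eq_of_mul_eq_mul_left (by positivity) h1)
    · intro r
      have hrl : 3 ^ b * (r : ℕ) < 3 ^ l := by
        have h1 : 3 ^ b * (r : ℕ) < 3 ^ b * 3 ^ (l - b) := Nat.mul_lt_mul_of_pos_left r.2 (by positivity)
        rw [← pow_add] at h1
        have e : b + (l - b) = l := by omega
        rwa [e] at h1
      have h1 := hbz (3 ^ b * (r : ℕ)) hrl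
      have h2 := hstep (3 ^ b * (r : ℕ)) (dvd_mul_right _ _)
      set Z := ζ ^ (4 ^ (3 ^ b * (r : ℕ))) with hZ
      have hfac : ∀ j, 1 - θ ^ j * Z ≠ 0 := by
        intro j h0
        have h3 := h2 j
        apply hne (3 ^ b * (r : ℕ) + 3 ^ l * j)
        rw [h3]
        linear_combination -h0
      have h3 : W.eval Z = (∏ i ∈ range (3 ^ (b + 1)), (1 - θ ^ i * Z) ^ d) *
          ∑ j ∈ range (3 ^ (b + 1)), ω ^ (3 ^ l * j) * Ph P (ζ ^ (4 ^ (3 ^ b * (r : ℕ) + 3 ^ l * j))) := by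
        rw [hW, eval_finsetSum, mul_sum]
        refine sum_congr rfl fun j hj => ?_
        rw [← mul_prod_erase _ _ hj]
        simp only [eval_mul, eval_C, eval_comp, eval_sub, eval_one, eval_X, eval_prod, eval_pow]
        rw [eval_map_algebraMap, Ph_reverse P _ (hfac j)]
        have e1 : Ph P (ζ ^ (4 ^ (3 ^ b * (r : ℕ) + 3 ^ l * j))) = aeval (1 - θ ^ j * Z)⁻¹ P := by
          unfold Ph
          rw [h2 j, mul_comm Z]
        rw [e1]
        ring
      rw [h3, h1, mul_zero]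
    · rw [Fintype.card_fin]
      exact hWd.trans_lt hl
  have hW1 : W.eval 1 = algebraMap (ZMod p) K P.leadingCoeff *
      ∏ i ∈ (range (3 ^ (b + 1))).erase 0, (1 - θ ^ i) ^ d := by
    rw [hW, eval_finsetSum, sum_eq_single_of_mem 0 (mem_range.2 (by positivity))]
    · simp only [eval_mul, eval_C, eval_comp, eval_sub, eval_one, eval_X, eval_prod, eval_pow,
        mul_zero, pow_zero, mul_one, one_mul, sub_self]
      rw [eval_map, eval₂_at_zero, coeff_zero_reverse]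
    · intro j hj hj0
      have h0 : 0 ∈ (range (3 ^ (b + 1))).erase j :=
        mem_erase.2 ⟨Ne.symm hj0, mem_range.2 (by positivity)⟩
      rw [eval_mul, ← mul_prod_erase _ _ h0]
      simp only [eval_mul, eval_C, eval_sub, eval_one, eval_X, eval_pow, pow_zero, mul_one, sub_self]
      rw [zero_pow (by omega), zero_mul, mul_zero]
  rw [hW0, eval_zero] at hW1
  have hP0 : P ≠ 0 := by
    intro h0
    rw [hd, h0, natDegree_zero] at hP
    omega
  refine mul_ne_zero ?_ ?_ hW1.symm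
  · rw [Ne, map_eq_zero]
    exact leadingCoeff_ne_zero.2 hP0
  · rw [prod_ne_zero_iff]
    intro i hi
    rw [mem_erase, mem_range] at hi
    apply pow_ne_zero
    intro h0
    exact hθne i (by omega) hi.2 (sub_eq_zero.1 h0).symm

end Pool.Agent.Run7.h263.RI
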