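import Mathlib
import Pool.Agent.Run7.h263.RI.Desc
import Pool.Agent.Run7.h263.RI.NV2

/-!
# Factorisation with characters, and the existence theorem
-/

set_option autoImplicit false

namespace Pool.Agent.Run7.h263.RI

open Finset Pool.Agent.H582R5.RP Pool.Agent.H332R2 Pool.Agent.TH350.SumReg

variable {K : Type} [Field K] [DecidableEq K]

lemma sum_prim' {ζ : K} {n : ℕ} (hζ : IsPrimitiveRoot ζ (3 ^ (n + 1))) (f : K → K) :
    ∑ x ∈ primitiveRoots (3 ^ (n + 1)) K, f x =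
      ∑ i ∈ range (3 ^ n), (f (ζ ^ (4 ^ i)) + f (ζ ^ (4 ^ i))⁻¹) := by
  rw [prim_union hζ, sum_union (prim_disj hζ), sum_image, sum_image, sum_add_distrib]
  · intro i hi j hj h
    exact pow4_inj hζ (by simpa using hi) (by simpa using hj) (inv_injective h)
  · intro i hi j hj h
    exact pow4_inj hζ (by simpa using hi) (by simpa using hj) h

lemma mu_three (n : ℕ) : mu K (3 ^ (n + 1)) = mu K (3 ^ n) ∪ primitiveRoots (3 ^ (n + 1)) K := by
  have _ : Fact (Nat.Prime 3) := ⟨Nat.prime_three⟩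
  have hpos : 0 < 3 ^ (n + 1) := by positivity
  have hpos' : 0 < 3 ^ n := by positivity
  ext x
  rw [mem_union, mem_mu hpos, mem_mu hpos', mem_primitiveRoots hpos]
  constructor
  · rintro ⟨h1, h2⟩
    by_cases h3 : x ^ (3 ^ n) = 1
    · exact Or.inl ⟨h1, h3⟩
    · right
      rw [← orderOf_eq_prime_pow h3 h2]
      exact IsPrimitiveRoot.orderOf x
  · rintro (⟨h1, h2⟩ | h)
    · refine ⟨h1, ?_⟩
      rw [pow_succ, pow_mul, h2, one_pow]
    · refine ⟨?_, h.pow_eq_one⟩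
      rintro rfl
      have h2 := IsPrimitiveRoot.unique h IsPrimitiveRoot.one
      have h3 : 1 < 3 ^ (n + 1) := Nat.one_lt_pow (by omega) (by norm_num)
      omega

lemma mu_three_disj (n : ℕ) : Disjoint (mu K (3 ^ n)) (primitiveRoots (3 ^ (n + 1)) K) := by
  have hpos : 0 < 3 ^ (n + 1) := by positivity
  have hpos' : 0 < 3 ^ n := by positivity
  rw [disjoint_left]
  intro x hx hy
  rw [mem_mu hpos'] at hx
  rw [mem_primitiveRoots hpos] at hy
  have h1 := (hy.pow_eq_one_iff_dvd _).1 hx.2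
  have h2 := Nat.le_of_dvd hpos' h1
  have h3 : 3 ^ n < 3 ^ (n + 1) := Nat.pow_lt_pow_right (by norm_num) (by omega)
  omega

/-- the antisymmetrised coefficient -/
noncomputable def DT (n : ℕ) (x : K) : K := DD n x - DD n x⁻¹

theorem conv_zero (p : ℕ) [Fact p.Prime] [Algebra (ZMod p) K] [IsAlgClosed K] {N : ℕ} (hN2 : 2 ≤ N)
    (hN : 2 * N + 3 ≤ p) (h : ∀ i, i ≤ N → ww p N i = 0) {n : ℕ} {ζ : K}
    (hζ : IsPrimitiveRoot ζ (3 ^ (n + 1))) (j : ℕ) :
    ∑ i ∈ range (3 ^ n), kap (ζ ^ (4 ^ (i + j))) * DT (2 * N - 2) (ζ ^ (4 ^ i)) = 0 := by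
  have hpr : p.Prime := Fact.out
  have h3p : ∀ k, ¬ p ∣ 3 ^ k := by
    intro k hk
    have h1 := hpr.dvd_of_dvd_pow hk
    have := Nat.le_of_dvd (by norm_num) h1
    omega
  have hcop : ∀ k, Nat.Coprime (3 ^ k) (4 ^ j) := fun k => (pow4_coprime j k).symm
  have e1 := EE_zero (K := K) p hN2 hN h (3 ^ (n + 1)) (by positivity) (h3p _) (4 ^ j) (hcop _)
  have e2 := EE_zero (K := K) p hN2 hN h (3 ^ n) (by positivity) (h3p _) (4 ^ j) (hcop _)
  unfold EE at e1 e2
  rw [mu_three, sum_union (mu_three_disj n), e2, zero_add, sum_prim' hζ] at e1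
  rw [← e1]
  refine sum_congr rfl fun i _ => ?_
  have h0 : ζ ^ (4 ^ i) ≠ 0 := pow_ne_zero _ (hζ.ne_zero (by positivity))
  rw [inv_pow, kap_inv (pow_ne_zero _ h0), DT, ← pow_mul, ← pow_add]
  ring

omit [DecidableEq K] in
/-- a product of a character sum and a conjugate character sum is a twisted correlation -/
lemma corr {M : ℕ} (f g : ℕ → K) (hf : ∀ i, f (i + M) = f i)
    {ω : K} (hω : ω ^ M = 1) (hω0 : ω ≠ 0) (h : ∀ j, ∑ i ∈ range M, f (i + j) * g i = 0) :
    (∑ j ∈ range M, ω ^ j * f j) * ∑ i ∈ range M, (ω⁻¹) ^ i * g i = 0 := by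
  rw [mul_sum]
  have h1 : ∀ i ∈ range M, (∑ j ∈ range M, ω ^ j * f j) * ((ω⁻¹) ^ i * g i) =
      ∑ j ∈ range M, ω ^ j * (f (i + j) * g i) := by
    intro i _
    rw [← sum_shift (fun j => ω ^ j * f j) M (fun j => by rw [pow_add, hω, mul_one, hf]) i, sum_mul]
    refine sum_congr rfl fun j _ => ?_
    rw [add_comm j i, pow_add, inv_pow]
    have : ω ^ i ≠ 0 := pow_ne_zero _ hω0
    field_simp
  rw [sum_congr rfl h1, sum_comm]
  refine sum_eq_zero fun j _ => ?_
  rw [← mul_sum, h j, mul_zero]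

section Pols

open Polynomial

variable {p : ℕ} [Fact p.Prime] [Algebra (ZMod p) K]

/-- polynomial for the function `kap` -/
noncomputable def Pk (p : ℕ) : (ZMod p)[X] := 1 - C 2 * X

omit [DecidableEq K] in
lemma Pk_eval {x : K} (hx : x ≠ 1) : Ph (Pk p) x = kap x := by
  unfold Ph Pk kap
  rw [map_sub, map_one, map_mul, aeval_C, aeval_X, map_ofNat]
  have h1 : 1 - x ≠ 0 := sub_ne_zero.2 hx.symm
  have h2 : x - 1 ≠ 0 := sub_ne_zero.2 hx
  field_simp
  ring

lemma Pk_deg (h20 : (2 : ZMod p) ≠ 0) : (Pk p).natDegree = 1 := by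
  unfold Pk
  have h : (1 - C 2 * X : (ZMod p)[X]) = C (-2) * X + C 1 := by
    rw [map_neg, map_one]; ring
  rw [h]
  exact natDegree_linear (neg_ne_zero.2 h20)

/-- coefficients -/
noncomputable def sk (p : ℕ) [Fact p.Prime] (n k : ℕ) : ZMod p :=
  PowerSeries.coeff n ((ee (1 : ZMod p) - 1) ^ k)

/-- the inner polynomial -/
noncomputable def Tk (p : ℕ) [Fact p.Prime] (n : ℕ) : (ZMod p)[X] :=
  ∑ k ∈ range (n + 1), C ((-1) ^ k * sk p n k) * X ^ k

/-- polynomial for the function `DD` -/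
noncomputable def Pd (p : ℕ) [Fact p.Prime] (n : ℕ) : (ZMod p)[X] := C 2 * (X - 1) * Tk p n

lemma sk_self (n : ℕ) : sk p n n = 1 := by
  unfold sk
  rw [uu_spec, mul_pow]
  have : PowerSeries.coeff n (PowerSeries.X ^ n * uu (ZMod p) ^ n) =
      PowerSeries.coeff (0 + n) (PowerSeries.X ^ n * uu (ZMod p) ^ n) := by rw [zero_add]
  rw [this, PowerSeries.coeff_X_pow_mul, PowerSeries.coeff_zero_eq_constantCoeff_apply, map_pow,
    uu_const, one_pow]

lemma Tk_coeff (n : ℕ) : (Tk p n).coeff n = (-1) ^ n := by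
  unfold Tk
  rw [finsetSum_coeff, Finset.sum_eq_single n]
  · rw [coeff_C_mul, coeff_X_pow, if_pos rfl, mul_one, sk_self, mul_one]
  · intro b _ hb
    rw [coeff_C_mul, coeff_X_pow, if_neg (Ne.symm hb), mul_zero]
  · intro hn
    exact absurd (mem_range.2 (Nat.lt_succ_self n)) hn

lemma Tk_deg (n : ℕ) : (Tk p n).natDegree = n := by
  apply natDegree_eq_of_le_of_coeff_ne_zero
  · refine natDegree_sum_le_of_forall_le _ _ (fun k hk => ?_)
    rw [mem_range] at hk
    exact (natDegree_C_mul_X_pow_le _ _).trans (by omega)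
  · rw [Tk_coeff]
    exact pow_ne_zero _ (neg_ne_zero.2 one_ne_zero)

lemma Pd_deg (h20 : (2 : ZMod p) ≠ 0) (n : ℕ) : (Pd p n).natDegree = n + 1 := by
  unfold Pd
  have h1 : (X - 1 : (ZMod p)[X]) = X - C 1 := by rw [map_one]
  have hT : Tk p n ≠ 0 := by
    intro h
    have := Tk_coeff (p := p) n
    rw [h, coeff_zero] at this
    exact pow_ne_zero n (neg_ne_zero.2 one_ne_zero) this.symm
  have hX : (X - 1 : (ZMod p)[X]) ≠ 0 := by rw [h1]; exact X_sub_C_ne_zero 1
  have hC : (C 2 : (ZMod p)[X]) ≠ 0 := C_ne_zero.2 h20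
  rw [natDegree_mul (mul_ne_zero hC hX) hT, natDegree_mul hC hX, natDegree_C, h1, natDegree_X_sub_C,
    Tk_deg]
  ring

omit [DecidableEq K] in
lemma ee_map : PowerSeries.map (algebraMap (ZMod p) K) (ee (1 : ZMod p)) = ee (1 : K) := by
  ext n
  rw [PowerSeries.coeff_map, ee, ee, PowerSeries.coeff_mk, PowerSeries.coeff_mk, map_mul, map_pow, map_one, map_inv₀,
    map_natCast]

omit [DecidableEq K] in
lemma sk_map (n k : ℕ) : algebraMap (ZMod p) K (sk p n k) =
    PowerSeries.coeff n ((ee (1 : K) - 1) ^ k) := by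
  unfold sk
  rw [← PowerSeries.coeff_map, map_pow, map_sub, ee_map, map_one]

omit [DecidableEq K] in
lemma Pd_eval {n : ℕ} (hn : 1 ≤ n) {x : K} (hx : x ≠ 1) : Ph (Pd p n) x = DD n x := by
  set e := ee (1 : K) with he
  set u := (1 - x)⁻¹ with hu
  have h1x : 1 - x ≠ 0 := sub_ne_zero.2 hx.symm
  have hinv := ez_inv hx
  rw [← he] at hinv
  -- the geometric series
  set G : PowerSeries K := ∑ k ∈ range (n + 1), PowerSeries.C ((-1) ^ k * u ^ (k + 1)) * (e - 1) ^ k with hG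
  have hCu : PowerSeries.C u * (1 - PowerSeries.C x) = (1 : PowerSeries K) := by
    have : (1 : PowerSeries K) = PowerSeries.C 1 := by simp
    rw [this, ← map_sub, ← map_mul, hu, inv_mul_cancel₀ h1x]
  have hG1 : (e - PowerSeries.C x) * G = 1 - (-(PowerSeries.C u * (e - 1))) ^ (n + 1) := by
    have h2 : G = PowerSeries.C u * ∑ k ∈ range (n + 1), (-(PowerSeries.C u * (e - 1))) ^ k := by
      rw [hG, mul_sum]
      refine sum_congr rfl fun k _ => ?_
      have h0 : (-(PowerSeries.C u * (e - 1))) ^ k = PowerSeries.C ((-1) ^ k * u ^ k) * (e - 1) ^ k := by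
        rw [← neg_mul, mul_pow, ← map_neg, ← map_pow, neg_pow u]
      rw [h0, ← mul_assoc, ← map_mul]
      congr 2
      ring
    have h3 : (e - PowerSeries.C x) * PowerSeries.C u = 1 - (-(PowerSeries.C u * (e - 1))) := by
      linear_combination hCu
    rw [h2, ← mul_assoc, h3, mul_neg_geom_sum]
  have hdvd : (PowerSeries.X : PowerSeries K) ^ (n + 1) ∣ (e - PowerSeries.C x)⁻¹ - G := by
    have h2 : (e - PowerSeries.C x)⁻¹ - G =
        (e - PowerSeries.C x)⁻¹ * (-(PowerSeries.C u * (e - 1))) ^ (n + 1) := by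
      linear_combination (- (e - PowerSeries.C x)⁻¹) * hG1 + G * hinv
    rw [h2, uu_spec]
    refine Dvd.dvd.mul_left ?_ _
    refine pow_dvd_pow_of_dvd ?_ _
    refine ⟨-(PowerSeries.C u * uu K), ?_⟩
    ring
  have hcz : cz x = 1 + PowerSeries.C (2 * x) * (e - PowerSeries.C x)⁻¹ := by
    unfold cz
    rw [← he, map_mul, map_ofNat]
    linear_combination hinv
  have hco : PowerSeries.coeff n ((e - PowerSeries.C x)⁻¹) = PowerSeries.coeff n G := by
    rw [PowerSeries.X_pow_dvd_iff] at hdvd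
    have := hdvd n (by omega)
    rwa [map_sub, sub_eq_zero] at this
  have hD : DD n x = 2 * x * ∑ k ∈ range (n + 1), (-1) ^ k * u ^ (k + 1) * algebraMap (ZMod p) K (sk p n k) := by
    unfold DD
    rw [hcz, map_add, PowerSeries.coeff_one, if_neg (by omega), zero_add, PowerSeries.coeff_C_mul, hco, hG,
      map_sum]
    congr 1
    refine sum_congr rfl fun k _ => ?_
    rw [PowerSeries.coeff_C_mul, sk_map]
  have hP : Ph (Pd p n) x = 2 * (u - 1) * ∑ k ∈ range (n + 1), (-1) ^ k * algebraMap (ZMod p) K (sk p n k) * u ^ k := by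
    unfold Ph Pd Tk
    rw [map_mul, map_mul, map_sub, aeval_C, aeval_X, map_one, map_sum, map_ofNat, ← hu]
    congr 1
    refine sum_congr rfl fun k _ => ?_
    rw [map_mul, aeval_C, map_pow, aeval_X, map_mul, map_pow, map_neg, map_one]
  rw [hD, hP, mul_sum, mul_sum]
  refine sum_congr rfl fun k _ => ?_
  have hxu : x * u = u - 1 := by
    rw [hu]; field_simp; ring
  rw [← hxu, pow_succ]
  ring

/-- polynomial for the antisymmetrised coefficient -/
noncomputable def Pt (p : ℕ) [Fact p.Prime] (n : ℕ) : (ZMod p)[X] := Pd p n - (Pd p n).comp (C 1 - X)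

lemma Pt_deg (h20 : (2 : ZMod p) ≠ 0) (n : ℕ) (hn : Even n) : 1 ≤ (Pt p n).natDegree := by
  have h1 : (C 1 - X : (ZMod p)[X]) = C (-1) * X + C 1 := by
    rw [map_neg, map_one]; ring
  have hd : (C 1 - X : (ZMod p)[X]).natDegree = 1 := by
    rw [h1]; exact natDegree_linear (neg_ne_zero.2 one_ne_zero)
  have hl : (C 1 - X : (ZMod p)[X]).leadingCoeff = -1 := by
    rw [h1]; exact leadingCoeff_linear (neg_ne_zero.2 one_ne_zero)
  have hc : ((Pd p n).comp (C 1 - X)).coeff (n + 1) = - (Pd p n).leadingCoeff := by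
    have h2 : ((Pd p n).comp (C 1 - X)).natDegree = n + 1 := by
      rw [natDegree_comp, hd, Pd_deg h20, mul_one]
    have h3 : ((Pd p n).comp (C 1 - X)).leadingCoeff = - (Pd p n).leadingCoeff := by
      rw [leadingCoeff_comp (by rw [hd]; exact one_ne_zero), hl, Pd_deg h20, Odd.neg_one_pow hn.add_one]
      ring
    rw [← h3, leadingCoeff, h2]
  have h4 : (Pt p n).coeff (n + 1) = 2 * (Pd p n).leadingCoeff := by
    unfold Pt
    rw [coeff_sub, hc]
    have : (Pd p n).coeff (n + 1) = (Pd p n).leadingCoeff := by rw [leadingCoeff, Pd_deg h20]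
    rw [this]; ring
  have h5 : (Pt p n).coeff (n + 1) ≠ 0 := by
    rw [h4]
    refine mul_ne_zero h20 (leadingCoeff_ne_zero.2 ?_)
    intro h0
    have := Pd_deg (p := p) h20 n
    rw [h0, natDegree_zero] at this
    omega
  have := le_natDegree_of_ne_zero h5
  omega

omit [DecidableEq K] in
lemma Pt_eval {n : ℕ} (hn : 1 ≤ n) {x : K} (hx : x ≠ 1) (hx0 : x ≠ 0) : Ph (Pt p n) x = DT n x := by
  have hx' : x⁻¹ ≠ 1 := by
    intro h; exact hx (by simpa using h)
  have h1x : 1 - x ≠ 0 := sub_ne_zero.2 hx.symm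
  have h1x' : 1 - x⁻¹ ≠ 0 := sub_ne_zero.2 hx'.symm
  unfold DT
  rw [← Pd_eval (p := p) hn hx, ← Pd_eval (p := p) hn hx']
  unfold Ph Pt
  rw [map_sub, aeval_comp, map_sub, aeval_C, aeval_X, map_one]
  have : (1 - x⁻¹)⁻¹ = 1 - (1 - x)⁻¹ := by
    have h2 : x - 1 ≠ 0 := sub_ne_zero.2 hx
    field_simp
    ring
  rw [this]

end Pols

theorem exists_weight (p : ℕ) [Fact p.Prime] {N : ℕ} (hN2 : 2 ≤ N) (hN : 2 * N + 3 ≤ p) :
    ∃ i, i ≤ N ∧ ww p N i ≠ 0 := by
  classical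
  by_contra hcon
  push Not at hcon
  have hpr : p.Prime := Fact.out
  set K := AlgebraicClosure (ZMod p) with hK
  have h20 : (2 : ZMod p) ≠ 0 := by
    intro h'
    have h'' : ((2 : ℕ) : ZMod p) = 0 := by exact_mod_cast h'
    rw [ZMod.natCast_eq_zero_iff] at h''
    have := Nat.le_of_dvd (by norm_num) h''
    omega
  -- the 3-adic valuation of p^2 - 1
  obtain ⟨b, q, hq, hQ⟩ : ∃ b q : ℕ, ¬ 3 ∣ q ∧ p ^ 2 = 1 + 3 ^ (b + 1) * q := by
    have h1 : p ^ 2 - 1 ≠ 0 := by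
      have : 1 < p ^ 2 := Nat.one_lt_pow (by norm_num) hpr.one_lt
      omega
    obtain ⟨c, q, hq, hcq⟩ := Nat.exists_eq_pow_mul_and_not_dvd h1 3 (by norm_num)
    have h3 : 3 ∣ p ^ 2 - 1 := by
      have h4 : p % 3 = 1 ∨ p % 3 = 2 := by
        have h5 : p % 3 ≠ 0 := by
          intro h0
          have := (Nat.prime_dvd_prime_iff_eq Nat.prime_three hpr).1 (Nat.dvd_of_mod_eq_zero h0)
          omega
        omega
      have h6 : p ^ 2 % 3 = 1 := by
        rw [Nat.pow_mod]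
        rcases h4 with h | h <;> rw [h]
      omega
    have hc : c ≠ 0 := by
      rintro rfl
      rw [pow_zero, one_mul] at hcq
      rw [hcq] at h3
      exact hq h3
    obtain ⟨b, rfl⟩ : ∃ b, c = b + 1 := ⟨c - 1, by omega⟩
    refine ⟨b, q, hq, ?_⟩
    rw [← hcq]
    have : 1 < p ^ 2 := Nat.one_lt_pow (by norm_num) hpr.one_lt
    omega
  set n := 2 * N - 2 with hn
  have hneven : Even n := ⟨N - 1, by omega⟩
  have hn1 : 1 ≤ n := by omega
  set d := (Pt p n).natDegree with hd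
  have hd1 : 1 ≤ d := Pt_deg h20 n hneven
  set l := b + (b + 1 + d) with hl
  have hlb : l - b = b + 1 + d := by omega
  set m := l + (b + 1) with hm
  have h3p : ∀ k, ¬ p ∣ 3 ^ k := by
    intro k hk
    have h1 := hpr.dvd_of_dvd_pow hk
    have := Nat.le_of_dvd (by norm_num) h1
    omega
  obtain ⟨ζ, hζ⟩ := prim_exists (K := K) p (d := 3 ^ (m + 1)) (by positivity) (h3p _)
  obtain ⟨ω, hω⟩ := prim_exists (K := K) p (d := 3 ^ m) (by positivity) (h3p _)
  have hconv := conv_zero (K := K) p hN2 hN hcon hζ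
  have hω0 : ω ≠ 0 := hω.ne_zero (by positivity)
  have hcorr := corr (M := 3 ^ m) (fun i => kap (ζ ^ (4 ^ i))) (fun i => DT (2 * N - 2) (ζ ^ (4 ^ i)))
    (fun i => by simp only [pow4_period hζ]) hω.pow_eq_one hω0 hconv
  have hne : ∀ i, ζ ^ (4 ^ i) ≠ 1 := by
    intro i hi
    have h1 := hζ.pow_of_coprime _ (pow4_coprime i (m + 1))
    rw [hi] at h1
    have h2 := IsPrimitiveRoot.unique h1 IsPrimitiveRoot.one
    have h3 : 1 < 3 ^ (m + 1) := Nat.one_lt_pow (by omega) (by norm_num)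
    omega
  have hne0 : ∀ i, ζ ^ (4 ^ i) ≠ 0 := fun i => pow_ne_zero _ (hζ.ne_zero (by positivity))
  have h3d : d < 3 ^ d := Nat.lt_pow_self (by norm_num)
  have hbig : d * 3 ^ (b + 1) < 3 ^ (l - b) := by
    have h9 : 3 ^ (b + 1 + d) = 3 ^ (b + 1) * 3 ^ d := pow_add _ _ _
    rw [hlb, h9, mul_comm d]
    exact Nat.mul_lt_mul_of_pos_left h3d (by positivity)
  have hA := nv (p := p) (K := K) (Pk p) (b := b) (l := l) (by omega) hζ hω hQ hq (by rw [Pk_deg h20])
    (by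
      rw [Pk_deg h20]
      exact lt_of_le_of_lt (Nat.mul_le_mul_right _ hd1) hbig)
  have hB := nv (p := p) (K := K) (Pt p n) (b := b) (l := l) (by omega) hζ hω.inv hQ hq hd1 hbig
  have hA' : SS (Pk p) ζ (3 ^ (l + (b + 1))) ω = ∑ j ∈ range (3 ^ m), ω ^ j * kap (ζ ^ (4 ^ j)) := by
    unfold SS
    refine sum_congr rfl fun i _ => ?_
    rw [Pk_eval (hne i)]
  have hB' : SS (Pt p n) ζ (3 ^ (l + (b + 1))) ω⁻¹ =
      ∑ i ∈ range (3 ^ m), (ω⁻¹) ^ i * DT (2 * N - 2) (ζ ^ (4 ^ i)) := by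
    unfold SS
    refine sum_congr rfl fun i _ => ?_
    rw [Pt_eval hn1 (hne i) (hne0 i)]
  rw [hA'] at hA
  rw [hB'] at hB
  exact mul_ne_zero hA hB hcorr

end Pool.Agent.Run7.h263.RI
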