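import Mathlib
import Pool.Agent.Run7.h263.RI.Char
import Pool.Agent.TH10.RP.Final

/-!
# Counts of representations
-/

set_option autoImplicit false

namespace Pool.Agent.Run7.h263.RI

open Finset Pool.Agent.H332R2 Pool.Agent.TH350.SumReg

section Hajos

open Polynomial

variable {p : ℕ} [Fact p.Prime]

/-- A polynomial of degree less than `p` with a zero of multiplicity `m` at `1` has more than `m` terms. -/
lemma hajos (m : ℕ) : ∀ G : (ZMod p)[X], G ≠ 0 → G.natDegree < p → (X - C 1) ^ m ∣ G →
    m < G.support.card := by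
  induction m with
  | zero =>
    intro G hG _ _
    exact card_pos.2 (support_nonempty.2 hG)
  | succ m ih =>
    intro G hG hd hdvd
    set k := G.natTrailingDegree with hk
    have hkd : k ≤ G.natDegree := natTrailingDegree_le_natDegree G
    set T := X * derivative G - C (k : ZMod p) * G with hT
    have hTc : ∀ i, T.coeff i = ((i : ZMod p) - k) * G.coeff i := by
      intro i
      rw [hT, coeff_sub, coeff_C_mul]
      rcases i with _ | i
      · rw [mul_coeff_zero, coeff_X_zero]
        simp
      · rw [coeff_X_mul, coeff_derivative]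
        push_cast
        ring
    have hTs : T.support = G.support.erase k := by
      ext i
      rw [mem_support_iff, hTc, mem_erase, mem_support_iff]
      constructor
      · intro h
        refine ⟨?_, right_ne_zero_of_mul h⟩
        rintro rfl
        rw [sub_self, zero_mul] at h
        exact h rfl
      · rintro ⟨h1, h2⟩
        refine mul_ne_zero ?_ h2
        have hi : i ≤ G.natDegree := le_natDegree_of_ne_zero h2
        intro h3
        rw [sub_eq_zero, ZMod.natCast_eq_natCast_iff, Nat.ModEq, Nat.mod_eq_of_lt (by omega),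
          Nat.mod_eq_of_lt (by omega)] at h3
        exact h1 h3
    have hkm : k ∈ G.support := natTrailingDegree_mem_support_of_nonzero hG
    have hTcard : T.support.card + 1 = G.support.card := by
      rw [hTs, card_erase_add_one hkm]
    have hTdvd : (X - C 1) ^ m ∣ T := by
      obtain ⟨R, hR⟩ := hdvd
      refine ⟨X * (C ((m : ZMod p) + 1) * R + (X - C 1) * derivative R) - C (k : ZMod p) * (X - C 1) * R, ?_⟩
      rw [hT, hR, derivative_mul, derivative_X_sub_C_pow]
      simp only [Nat.add_sub_cancel, Nat.cast_add, Nat.cast_one, map_add, map_natCast, map_one]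
      ring
    have hT0 : T ≠ 0 := by
      intro h0
      rw [h0, support_zero, card_empty] at hTcard
      -- then G is a monomial, not zero at 1
      have h1 : G = C (G.coeff k) * X ^ k := by
        ext i
        rw [coeff_C_mul, coeff_X_pow]
        split_ifs with h2
        · rw [h2, mul_one]
        · rw [mul_zero]
          by_contra h3
          have h4 := mem_support_iff.2 h3
          have h5 := card_eq_one.1 hTcard.symm
          obtain ⟨a, ha⟩ := h5
          rw [ha, mem_singleton] at h4 hkm
          exact h2 (h4.trans hkm.symm)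
      have h2 : (X - C 1) ∣ G := (dvd_pow_self _ (Nat.succ_ne_zero m)).trans hdvd
      rw [dvd_iff_isRoot, IsRoot, h1, eval_mul, eval_C, eval_pow, eval_X, one_pow, mul_one] at h2
      exact (mem_support_iff.1 hkm) h2
    have hTd : T.natDegree < p := by
      refine lt_of_le_of_lt ?_ hd
      by_contra hcon
      push Not at hcon
      have h1 : T.natDegree ∈ T.support := natDegree_mem_support_of_nonzero hT0
      rw [hTs, mem_erase] at h1
      have := le_natDegree_of_mem_supp _ h1.2
      omega
    have := ih T hT0 hTd hTdvd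
    omega

end Hajos

variable {p : ℕ} [Fact p.Prime]

lemma ww_symm (N i : ℕ) (hi : i ≤ N) : ww p N (N - i) = ww p N i := by
  unfold ww
  have : N - (N - i) = i := by omega
  rw [this, mul_comm]

open Polynomial in
/-- For an irregular `N` the smallest `v` with `ww p N v ≠ 0` is at most `N / 4`, and there are more than
`2 v` representations. -/
theorem small_rep {N : ℕ} (hN2 : 2 ≤ N) (hN : 2 * N + 3 ≤ p) {v : ℕ} (hvN : v ≤ N) (hv1 : 1 ≤ v)
    (hv : ww p N v ≠ 0) (hmin : ∀ i, i < v → ww p N i = 0) :
    4 * v ≤ N ∧ 2 * v < ((range (N + 1)).filter (fun i => ww p N i ≠ 0)).card := by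
  have hid := identity_poly (p := p) N hN2 hN
  set g : (ZMod p)[X] := ∑ i ∈ range (N + 1), C (ww p N i) * X ^ (2 * i) with hg
  set G : (ZMod p)[X] := ∑ i ∈ range (N + 1), C (ww p N i) * X ^ i with hG
  have hGc : ∀ i, i ≤ N → G.coeff i = ww p N i := by
    intro i hi
    rw [hG, finsetSum_coeff, Finset.sum_eq_single i]
    · rw [coeff_C_mul, coeff_X_pow, if_pos rfl, mul_one]
    · intro b _ hb
      rw [coeff_C_mul, coeff_X_pow, if_neg (Ne.symm hb), mul_zero]
    · intro hn
      exact absurd (mem_range.2 (by omega)) hn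
  have hGd : G.natDegree ≤ N := by
    refine natDegree_sum_le_of_forall_le _ _ (fun k hk => ?_)
    rw [mem_range] at hk
    exact (natDegree_C_mul_X_pow_le _ _).trans (by omega)
  have hG0 : G ≠ 0 := by
    intro h0
    apply hv
    rw [← hGc v hvN, h0, coeff_zero]
  have hGs : G.support = (range (N + 1)).filter (fun i => ww p N i ≠ 0) := by
    ext i
    rw [mem_support_iff, mem_filter, mem_range]
    constructor
    · intro h
      have h1 := le_natDegree_of_ne_zero h
      refine ⟨by omega, ?_⟩
      rwa [← hGc i (by omega)]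
    · rintro ⟨h1, h2⟩
      rwa [hGc i (by omega)]
  have hgG : g = G.comp (X ^ 2) := by
    rw [hg, hG, Polynomial.sum_comp]
    refine sum_congr rfl fun i _ => ?_
    rw [mul_comp, C_comp, X_pow_comp, ← pow_mul]
  -- divisibility by (X+1)^(2v+1) of the right-hand side
  have hR : (X + 1) * g = ∑ i ∈ range (N + 1), C (ww p N i) * ((X + 1) ^ (2 * i) * (X ^ (2 * (N - i)) + X)) := by
    rw [hg, mul_sum, ← sub_eq_zero, ← sum_sub_distrib, ← neg_eq_zero, ← sum_neg_distrib, ← hid]
    refine sum_congr rfl fun i _ => ?_
    ring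
  have hdvd1 : (X + 1 : (ZMod p)[X]) ^ (2 * v + 1) ∣ (X + 1) * g := by
    rw [hR]
    refine dvd_sum fun i hi => ?_
    rcases lt_trichotomy i v with h | h | h
    · rw [hmin i h, C_0, zero_mul]
      exact dvd_zero _
    · subst h
      refine Dvd.dvd.mul_left ?_ _
      rw [pow_succ]
      refine mul_dvd_mul_left _ ?_
      have h1 : (X + 1 : (ZMod p)[X]) = X - C (-1) := by rw [map_neg, map_one]; ring
      rw [h1, dvd_iff_isRoot, IsRoot, eval_add, eval_pow, eval_X, pow_mul]
      norm_num
    · refine Dvd.dvd.mul_left ?_ _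
      exact (pow_dvd_pow _ (by omega)).mul_right _
  have hX1 : (X + 1 : (ZMod p)[X]) ≠ 0 := by
    have h1 : (X + 1 : (ZMod p)[X]) = X - C (-1) := by rw [map_neg, map_one]; ring
    rw [h1]
    exact X_sub_C_ne_zero _
  have hdvd2 : (X + 1 : (ZMod p)[X]) ^ (2 * v) ∣ g := by
    rw [pow_succ'] at hdvd1
    exact (mul_dvd_mul_iff_left hX1).1 hdvd1
  -- transfer to G
  have h20 : (2 : ZMod p) ≠ 0 := by
    intro h'
    have h'' : ((2 : ℕ) : ZMod p) = 0 := by exact_mod_cast h'
    rw [ZMod.natCast_eq_zero_iff] at h''
    have := Nat.le_of_dvd (by norm_num) h''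
    omega
  have key : (X - C 1 : (ZMod p)[X]) ^ (2 * v) ∣ G := by
    rcases Nat.lt_or_ge (G.rootMultiplicity 1) (2 * v) with hlt | hge
    · exfalso
      obtain ⟨Q, hQ, hQ1⟩ := Polynomial.exists_eq_pow_rootMultiplicity_mul_and_not_dvd G hG0 1
      set r := G.rootMultiplicity 1 with hr
      have h1 : g = (X + 1) ^ r * ((X - 1) ^ r * Q.comp (X ^ 2)) := by
        rw [hgG, hQ, mul_comp, pow_comp, sub_comp, X_comp, C_comp, map_one, ← mul_assoc, ← mul_pow]
        congr 2
        ring
      rw [h1, ← Nat.add_sub_cancel' hlt.le, pow_add] at hdvd2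
      have h2 := (mul_dvd_mul_iff_left (pow_ne_zero r hX1)).1 hdvd2
      have h3 : (X + 1 : (ZMod p)[X]) ∣ (X - 1) ^ r * Q.comp (X ^ 2) :=
        (dvd_pow_self _ (by omega)).trans h2
      have h4 : (X + 1 : (ZMod p)[X]) = X - C (-1) := by rw [map_neg, map_one]; ring
      rw [h4, dvd_iff_isRoot, IsRoot, eval_mul, eval_pow, eval_sub, eval_X, eval_one, eval_comp, eval_pow,
        eval_X] at h3
      rcases mul_eq_zero.1 h3 with h5 | h5
      · have h7 : (-1 - 1 : ZMod p) ≠ 0 := by
          intro h8
          apply h20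
          linear_combination -h8
        exact pow_ne_zero r h7 h5
      · apply hQ1
        rw [dvd_iff_isRoot, IsRoot]
        have : ((-1 : ZMod p)) ^ 2 = 1 := by norm_num
        rwa [this] at h5
    · exact (pow_dvd_pow _ hge).trans (pow_rootMultiplicity_dvd G 1)
  constructor
  · -- degree count
    have hXv : (X : (ZMod p)[X]) ^ v ∣ G := by
      rw [X_pow_dvd_iff]
      intro i hi
      rw [hGc i (by omega), hmin i hi]
    have hcop : IsCoprime ((X : (ZMod p)[X]) ^ v) ((X - C 1) ^ (2 * v)) := by
      apply IsCoprime.pow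
      refine ⟨1, -1, ?_⟩
      rw [map_one]; ring
    have hboth := hcop.mul_dvd hXv key
    have hdeg : G.natDegree ≤ N - v := by
      rw [natDegree_le_iff_coeff_eq_zero]
      intro i hi
      rcases Nat.lt_or_ge N i with h1 | h1
      · exact coeff_eq_zero_of_natDegree_lt (by omega)
      · rw [hGc i h1, ← ww_symm N i h1, hmin _ (by omega)]
    have h1 := natDegree_le_of_dvd hboth hG0
    rw [natDegree_mul (pow_ne_zero _ X_ne_zero) (pow_ne_zero _ (X_sub_C_ne_zero 1)), natDegree_pow, natDegree_pow,
      natDegree_X, natDegree_X_sub_C] at h1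
    omega
  · rw [← hGs]
    exact hajos (2 * v) G hG0 (by omega) key

end Pool.Agent.Run7.h263.RI
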