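import Mathlib
import Pool.Agent.Run7.h263.RI.Fin

/-!
# Every index is a sum of two regular indices: the final theorem
-/

set_option autoImplicit false

namespace Pool.Agent.Run7.h263.RI

open Finset Pool.Agent.H332R2 Pool.Agent.TH350.SumReg Pool.Agent.TH10.RP

variable {p : ℕ} [Fact p.Prime]

/-- the interior representations -/
noncomputable def RR (p : ℕ) (N : ℕ) : Finset ℕ :=
  (Icc 1 (N - 1)).filter (fun i : ℕ => ¬ ((p : ℤ) ∣ (_root_.bernoulli (2 * i)).num) ∧
    ¬ ((p : ℤ) ∣ (_root_.bernoulli (2 * (N - i))).num))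

lemma irr_weights {N : ℕ} (hN : 2 * N + 3 ≤ p) (hN1 : 1 ≤ N)
    (hirr : (p : ℤ) ∣ (_root_.bernoulli (2 * N)).num) :
    (range (N + 1)).filter (fun i => ww p N i ≠ 0) = RR p N := by
  have hz : cc p (2 * N) = 0 := (cc_eq_zero_iff (by omega) (by omega)).2 hirr
  ext i
  unfold RR
  rw [mem_filter, mem_filter, mem_range, mem_Icc]
  constructor
  · rintro ⟨h1, h2⟩
    have h3 := (ww_iff p N i (by omega) hN).1 h2
    have h4 : i ≠ 0 := by
      rintro rfl
      apply h2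
      unfold ww
      rw [Nat.sub_zero, hz, mul_zero]
    have h5 : i ≠ N := by
      rintro rfl
      apply h2
      unfold ww
      rw [hz, zero_mul]
    exact ⟨⟨by omega, by omega⟩, h3⟩
  · rintro ⟨h1, h2⟩
    exact ⟨by omega, (ww_iff p N i (by omega) hN).2 h2⟩

theorem rep_count {N : ℕ} (hN2 : 2 ≤ N) (hN : 2 * N + 3 ≤ p) : 2 * N ≤ 9 * (RR p N).card ^ 2 := by
  by_cases hirr : (p : ℤ) ∣ (_root_.bernoulli (2 * N)).num
  · have h1 := rep_bound p N hN (exists_weight p hN2 hN)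
    rw [irr_weights hN (by omega) hirr] at h1
    exact h1.le
  · have h1 := Pool.Agent.TH350.SumReg.main (p := p) N hN2 hN hirr (RR p N) (by
      intro i h1 h2 h3 h4
      exact mem_filter.2 ⟨mem_Icc.2 ⟨by omega, by omega⟩, h3, h4⟩) (by
      intro i hi
      have h2 := (mem_filter.1 hi).1
      rw [mem_Icc] at h2
      omega)
    have h2 : 1 ≤ (RR p N).card := by
      by_contra hc
      have h3 : (RR p N).card = 0 := by omega
      rw [h3] at h1
      omega
    nlinarith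

theorem exists_pair {N : ℕ} (hN2 : 2 ≤ N) (hN : 2 * N + 3 ≤ p) :
    ∃ i j : ℕ, 1 ≤ i ∧ 1 ≤ j ∧ i + j = N ∧ ¬ ((p : ℤ) ∣ (_root_.bernoulli (2 * i)).num) ∧
      ¬ ((p : ℤ) ∣ (_root_.bernoulli (2 * j)).num) := by
  have h1 := rep_count hN2 hN
  have h2 : (RR p N).Nonempty := by
    rw [← card_pos]
    by_contra hc
    have h3 : (RR p N).card = 0 := by omega
    rw [h3] at h1
    omega
  obtain ⟨i, hi⟩ := h2
  unfold RR at hi
  rw [mem_filter, mem_Icc] at hi
  exact ⟨i, N - i, by omega, by omega, by omega, hi.2.1, hi.2.2⟩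

theorem small_pair {N : ℕ} (hN2 : 2 ≤ N) (hN : 2 * N + 3 ≤ p)
    (hirr : (p : ℤ) ∣ (_root_.bernoulli (2 * N)).num) :
    ∃ v : ℕ, 1 ≤ v ∧ 4 * v ≤ N ∧ ¬ ((p : ℤ) ∣ (_root_.bernoulli (2 * v)).num) ∧
      ¬ ((p : ℤ) ∣ (_root_.bernoulli (2 * (N - v))).num) ∧ 2 * v < (RR p N).card ∧
      ∀ i, 1 ≤ i → i < v → (p : ℤ) ∣ (_root_.bernoulli (2 * i)).num ∨
        (p : ℤ) ∣ (_root_.bernoulli (2 * (N - i))).num := by
  classical
  have hex := exists_weight p hN2 hN
  set v := Nat.find hex with hv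
  have hspec := Nat.find_spec hex
  have hmin : ∀ i, i < v → ww p N i = 0 := by
    intro i hi
    by_contra h
    exact Nat.find_min hex hi ⟨by have := hspec.1; omega, h⟩
  have hv1 : 1 ≤ v := by
    by_contra hc
    have h0 : v = 0 := by omega
    apply hspec.2
    rw [← hv, h0]
    unfold ww
    rw [Nat.sub_zero, (cc_eq_zero_iff (by omega) (by omega)).2 hirr, mul_zero]
  have h1 := small_rep hN2 hN hspec.1 hv1 hspec.2 hmin
  rw [irr_weights hN (by omega) hirr] at h1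
  have h2 := (ww_iff p N v hspec.1 hN).1 hspec.2
  refine ⟨v, hv1, h1.1, h2.1, h2.2, h1.2, ?_⟩
  intro i _ hi
  by_contra hc
  push Not at hc
  exact (ww_iff p N i (by omega) hN).2 hc (hmin i hi)

lemma SG_all {K : ℕ} (hK : 2 * K + 3 ≤ p) : SG p K = range (K + 1) := by
  unfold SG
  rw [filter_eq_self]
  intro N hN
  rw [mem_range] at hN
  rcases Nat.lt_or_ge N 2 with h | h
  · refine ⟨0, Nat.zero_le _, ?_⟩
    rw [ww_iff p N 0 (Nat.zero_le _) (by omega)]
    have h1 : ∀ m : ℕ, (_root_.bernoulli m).num = 1 → 2 ≤ p → ¬ ((p : ℤ) ∣ (_root_.bernoulli m).num) := by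
      intro m hm hp2 hd
      rw [hm] at hd
      have := Int.le_of_dvd (by norm_num) hd
      omega
    refine ⟨h1 _ (by simp) (by omega), ?_⟩
    have h2 : N = 0 ∨ N = 1 := by omega
    rcases h2 with rfl | rfl
    · exact h1 _ (by simp) (by omega)
    · exact h1 _ (by simpa using num_two) (by omega)
  · exact exists_weight p h (by omega)

lemma sqrt_sum (K : ℕ) : (2 / 3 : ℝ) * (K * Real.sqrt K) ≤ ∑ M ∈ range (K + 1), Real.sqrt M := by
  induction K with
  | zero => simp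
  | succ K ih =>
    rw [sum_range_succ]
    have ha : 0 ≤ Real.sqrt K := Real.sqrt_nonneg _
    have hb : 0 ≤ Real.sqrt (K + 1 : ℕ) := Real.sqrt_nonneg _
    have ha2 : Real.sqrt K ^ 2 = K := Real.sq_sqrt (by positivity)
    have hb2 : Real.sqrt (K + 1 : ℕ) ^ 2 = K + 1 := by
      rw [Real.sq_sqrt (by positivity)]; push_cast; ring
    have hab : Real.sqrt K ≤ Real.sqrt (K + 1 : ℕ) := Real.sqrt_le_sqrt (by push_cast; linarith)
    set a := Real.sqrt K
    set b := Real.sqrt (K + 1 : ℕ)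
    have h1 : b ^ 3 - a ^ 3 ≤ 3 / 2 * b := by
      have h2 : b ^ 2 - a ^ 2 = 1 := by rw [ha2, hb2]; ring
      have h3 : 3 / 2 * b - (b ^ 3 - a ^ 3) = (b - a) ^ 2 * (b / 2 + a) := by
        have : 3 / 2 * b = 3 / 2 * b * (b ^ 2 - a ^ 2) := by rw [h2, mul_one]
        rw [this]; ring
      have h4 : 0 ≤ (b - a) ^ 2 * (b / 2 + a) := by positivity
      linarith
    have h2 : ((K + 1 : ℕ) : ℝ) * b = b ^ 3 := by
      rw [show ((K + 1 : ℕ) : ℝ) = b ^ 2 by rw [hb2]; push_cast; ring]; ring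
    have h3 : (K : ℝ) * a = a ^ 3 := by
      rw [← ha2]; ring
    rw [h2]
    rw [h3] at ih
    linarith

theorem count_all {K : ℕ} (hK : 2 * K + 3 ≤ p) :
    8 * K ^ 3 ≤ 81 * (((Icc 1 K).filter
      (fun m : ℕ => ¬ ((p : ℤ) ∣ (_root_.bernoulli (2 * m)).num))).card + 1) ^ 4 := by
  classical
  set s := ((Icc 1 K).filter (fun m : ℕ => ¬ ((p : ℤ) ∣ (_root_.bernoulli (2 * m)).num))).card with hs
  have h1 := pairs_count p K
  rw [SG_all hK] at h1
  have h3 : ((range (K + 1)).filter (fun i => cc p (2 * i) ≠ 0)).card = s + 1 := by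
    have e1 : (range (K + 1)).filter (fun i => cc p (2 * i) ≠ 0) =
        insert 0 ((Icc 1 K).filter (fun m : ℕ => ¬ ((p : ℤ) ∣ (_root_.bernoulli (2 * m)).num))) := by
      ext x
      rw [mem_filter, mem_range, mem_insert, mem_filter, mem_Icc]
      constructor
      · rintro ⟨h4, h5⟩
        rcases Nat.eq_zero_or_pos x with rfl | hx
        · exact Or.inl rfl
        · right
          refine ⟨by omega, fun h6 => h5 ((cc_eq_zero_iff (by omega) (by omega)).2 h6)⟩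
      · rintro (rfl | ⟨h4, h5⟩)
        · refine ⟨by omega, ?_⟩
          rw [mul_zero, cc_zero]
          exact one_ne_zero
        · exact ⟨by omega, fun h6 => h5 ((cc_eq_zero_iff (by omega) (by omega)).1 h6)⟩
    rw [e1, card_insert_of_notMem]
    simp
  rw [h3] at h1
  have h4 : ∀ M ∈ range (K + 1), Real.sqrt 2 * Real.sqrt M / 3 ≤
      (((range (M + 1)).filter (fun i => ww p M i ≠ 0)).card : ℝ) := by
    intro M hM
    have hMSG : M ∈ SG p K := by rw [SG_all hK]; exact hM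
    have hM2 := (mem_filter.1 hMSG).2
    rw [mem_range] at hM
    have h5 := rep_bound p M (by omega) hM2
    have h6 : ((2 : ℝ) * M) ≤ (3 * (((range (M + 1)).filter (fun i => ww p M i ≠ 0)).card : ℝ)) ^ 2 := by
      have : 2 * M ≤ (3 * ((range (M + 1)).filter (fun i => ww p M i ≠ 0)).card) ^ 2 := by
        rw [mul_pow]; omega
      exact_mod_cast this
    have h7 := Real.sqrt_le_sqrt h6
    rw [Real.sqrt_sq (by positivity), Real.sqrt_mul (by norm_num)] at h7
    linarith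
  have h8 : Real.sqrt 2 / 3 * ∑ M ∈ range (K + 1), Real.sqrt M ≤ ((s : ℝ) + 1) ^ 2 := by
    calc Real.sqrt 2 / 3 * ∑ M ∈ range (K + 1), Real.sqrt M =
        ∑ M ∈ range (K + 1), Real.sqrt 2 * Real.sqrt M / 3 := by
          rw [mul_sum]
          refine sum_congr rfl fun M _ => by ring
      _ ≤ ∑ M ∈ range (K + 1), (((range (M + 1)).filter (fun i => ww p M i ≠ 0)).card : ℝ) := sum_le_sum h4
      _ ≤ ((s : ℝ) + 1) ^ 2 := by exact_mod_cast h1
  have h9 := sqrt_sum K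
  have h10 : Real.sqrt 2 / 3 * ((2 / 3 : ℝ) * (K * Real.sqrt K)) ≤ ((s : ℝ) + 1) ^ 2 :=
    (mul_le_mul_of_nonneg_left h9 (by positivity)).trans h8
  have h11 := pow_le_pow_left₀ (by positivity) h10 2
  have h12 : (Real.sqrt 2 / 3 * ((2 / 3 : ℝ) * (K * Real.sqrt K))) ^ 2 = 8 / 81 * (K : ℝ) ^ 3 := by
    have e1 : Real.sqrt 2 ^ 2 = 2 := Real.sq_sqrt (by norm_num)
    have e2 : Real.sqrt K ^ 2 = K := Real.sq_sqrt (by positivity)
    calc (Real.sqrt 2 / 3 * ((2 / 3 : ℝ) * (K * Real.sqrt K))) ^ 2 =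
        (Real.sqrt 2 ^ 2) * (4 / 81) * (K ^ 2 * Real.sqrt K ^ 2) := by ring
      _ = 8 / 81 * (K : ℝ) ^ 3 := by rw [e1, e2]; ring
  rw [h12] at h11
  have h13 : (8 : ℝ) * (K : ℝ) ^ 3 ≤ 81 * ((s : ℝ) + 1) ^ 4 := by
    have : (((s : ℝ) + 1) ^ 2) ^ 2 = ((s : ℝ) + 1) ^ 4 := by ring
    rw [this] at h11
    linarith
  exact_mod_cast h13

end Pool.Agent.Run7.h263.RI
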