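import Mathlib
import Pool.Agent.Run7.h263.RI.Main

/-!
# Two summands from a set which contains the regular indices
-/

set_option autoImplicit false

namespace Pool.Agent.Run7.h263.RI

open Finset

/-- If a set `G` of indices contains all regular indices then the set `R` of the `i` with `i, N - i ∈ G`
satisfies the same estimates. -/
theorem two_of (p : ℕ) (hp : p.Prime) (N : ℕ) (hN : 2 ≤ N) (hNp : 2 * N + 3 ≤ p) (G : ℕ → Prop)
    (hG : ∀ m : ℕ, 1 ≤ m → 2 * m + 3 ≤ p → ¬ ((p : ℤ) ∣ (bernoulli (2 * m)).num) → G m)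
    (R : Finset ℕ) (hR : ∀ i : ℕ, i ∈ R ↔ 1 ≤ i ∧ i < N ∧ G i ∧ G (N - i)) :
    R.Nonempty ∧ 2 * N ≤ 9 * R.card ^ 2 ∧
    (¬ G N → ∃ v ∈ R, (∀ i ∈ R, v ≤ i) ∧ 4 * v ≤ N ∧ 2 * v < R.card) := by
  have : Fact p.Prime := ⟨hp⟩
  have hsub : RR p N ⊆ R := by
    intro i hi
    rw [RR, mem_filter, mem_Icc] at hi
    rw [hR]
    exact ⟨hi.1.1, by omega, hG i hi.1.1 (by omega) hi.2.1, hG (N - i) (by omega) (by omega) hi.2.2⟩
  have hcard := card_le_card hsub
  have h1 := rep_count (p := p) hN hNp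
  have hne : R.Nonempty := by
    rw [← card_pos]
    by_contra hc
    have h3 : R.card = 0 := by omega
    have h4 : (RR p N).card = 0 := by omega
    rw [h4] at h1
    omega
  refine ⟨hne, ?_, ?_⟩
  · have := Nat.pow_le_pow_left hcard 2
    omega
  · intro hGN
    have hirr : (p : ℤ) ∣ (bernoulli (2 * N)).num := by
      by_contra hc
      exact hGN (hG N (by omega) hNp hc)
    obtain ⟨v, h1, h2, h3, h4, h5, h6⟩ := small_pair (p := p) hN hNp hirr
    have hvR : v ∈ R := hsub (by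
      rw [RR, mem_filter, mem_Icc]
      exact ⟨⟨h1, by omega⟩, h3, h4⟩)
    obtain ⟨u, hu, humin⟩ := R.exists_min_image id hne
    simp only [id] at humin
    have huv := humin v hvR
    exact ⟨u, hu, humin, by omega, by omega⟩

end Pool.Agent.Run7.h263.RI
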